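import Pool.Agent.U503.VS.Rec

/-!
# The directed torus `C_p^t` (`p ≥ 5` prime) is a union of `t` directed Hamiltonian cycles
-/

set_option autoImplicit false

namespace Pool.Agent.U503.VS

open Finset Function

/-- The out-neighbours in the directed torus. -/
def StdE (p : ℕ) (ι : Type) [Fintype ι] [DecidableEq ι] (v : ι → ZMod p) :
    Multiset (ι → ZMod p) := (univ : Finset ι).val.map (fun i => v + Pi.single i 1)

/-- The grading of the directed torus. -/
def StdG (p : ℕ) (ι : Type) [Fintype ι] (v : ι → ZMod p) : ZMod p := ∑ i, v i

theorem std_reindex {p t : ℕ} {ι ι' : Type} [Fintype ι] [DecidableEq ι] [Fintype ι']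
    [DecidableEq ι'] (e : ι ≃ ι') (H : HD p t (StdE p ι) (StdG p ι)) :
    HD p t (StdE p ι') (StdG p ι') := by
  refine H.congr (Equiv.arrowCongr e (Equiv.refl (ZMod p))) ?_ ?_
  · intro v
    unfold StdE
    rw [← Finset.map_univ_equiv e, Finset.map_val, Multiset.map_map, Multiset.map_map]
    congr 1
    funext i
    funext j
    simp only [comp_apply, Equiv.arrowCongr_apply, Equiv.coe_refl, id, Pi.add_apply,
      Equiv.coe_toEmbedding]
    congr 1
    by_cases h : j = e i
    · subst h
      simp
    · have h' : e.symm j ≠ i := fun h2 => h (by rw [← h2]; simp)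
      rw [Pi.single_eq_of_ne h, Pi.single_eq_of_ne h']
  · intro v
    unfold StdG
    exact (Fintype.sum_equiv e _ _ (fun i => by simp)).symm

theorem std_prod {p t a b : ℕ}
    (H : HD p t (PEd (StdE p (Fin a)) (StdE p (Fin b)))
      (fun v => StdG p (Fin a) v.1 + StdG p (Fin b) v.2)) :
    HD p t (StdE p (Fin (a + b))) (StdG p (Fin (a + b))) := by
  have H' : HD p t (StdE p (Fin a ⊕ Fin b)) (StdG p (Fin a ⊕ Fin b)) := by
    refine H.congr (Equiv.sumArrowEquivProdArrow (Fin a) (Fin b) (ZMod p)).symm ?_ ?_
    · intro v
      unfold StdE PEd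
      rw [← Finset.univ_disjSum_univ, Finset.val_disjSum, Multiset.disjSum, Multiset.map_add,
        Multiset.map_add, Multiset.map_map, Multiset.map_map, Multiset.map_map, Multiset.map_map,
        Multiset.map_map, Multiset.map_map]
      congr 2
      · funext i
        funext j
        rcases j with j | j
        · simp [Pi.single_apply]
          rfl
        · simp
          rfl
      · funext i
        funext j
        rcases j with j | j
        · simp
          rfl
        · simp [Pi.single_apply]
          rfl
    · intro v
      unfold StdG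
      rw [Fintype.sum_sum_type]
      rfl
  exact std_reindex finSumFinEquiv H'

theorem hd_one {p : ℕ} [NeZero p] : HD p 1 (StdE p (Fin 1)) (StdG p (Fin 1)) := by
  have H : HD p 1 (fun v : ZMod p => ({v + 1} : Multiset (ZMod p))) (fun v => v) := by
    refine ⟨inferInstance, by rw [Nat.card_eq_fintype_card, ZMod.card, pow_one], ?_,
      [fun v => v + 1], rfl, ?_, ?_, ?_⟩
    · intro v w hw
      exact Multiset.mem_singleton.1 hw
    · intro κ hκ
      rw [List.mem_singleton.1 hκ]
      exact trans_add isUnit_one
    · intro v
      rfl
    · intro h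
      omega
  refine H.congr (Equiv.funUnique (Fin 1) (ZMod p)).symm ?_ ?_
  · intro v
    unfold StdE
    rw [Multiset.map_singleton]
    have : (univ : Finset (Fin 1)).val = {0} := rfl
    rw [this, Multiset.map_singleton]
    congr 1
    funext i
    have : i = 0 := Subsingleton.elim _ _
    subst this
    simp
  · intro v
    unfold StdG
    simp

/-- The coordinates of the three-dimensional torus. -/
def eq3 (p : ℕ) : ((ZMod p × ZMod p) × ZMod p) ≃ (Fin 3 → ZMod p) where
  toFun v := ![v.1.1, v.1.2, v.2]
  invFun f := ((f 0, f 1), f 2)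
  left_inv v := rfl
  right_inv f := by
    funext i
    fin_cases i <;> rfl

theorem hd_three {p : ℕ} [NeZero p] (hp : p.Prime) (hp5 : 5 ≤ p) :
    HD p 3 (StdE p (Fin 3)) (StdG p (Fin 3)) := by
  have H : HD p 3 (fun v : (ZMod p × ZMod p) × ZMod p =>
      (([((v.1.1 + 1, v.1.2), v.2), ((v.1.1, v.1.2 + 1), v.2), (v.1, v.2 + 1)] :
        List ((ZMod p × ZMod p) × ZMod p)) : Multiset ((ZMod p × ZMod p) × ZMod p))) SS := by
    refine ⟨inferInstance, ?_, ?_, [c2, c1, c3], rfl, ?_, ?_, ?_⟩
    · rw [Nat.card_eq_fintype_card, Fintype.card_prod, Fintype.card_prod, ZMod.card]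
      ring
    · intro v w hw
      rw [Multiset.mem_coe] at hw
      simp only [List.mem_cons, List.not_mem_nil, or_false] at hw
      rcases hw with rfl | rfl | rfl
      · unfold SS; ring
      · unfold SS; ring
      · unfold SS; ring
    · intro κ hκ
      simp only [List.mem_cons, List.not_mem_nil, or_false] at hκ
      rcases hκ with rfl | rfl | rfl
      · exact c2_trans
      · exact c1_trans hp hp5
      · exact c3_trans hp hp5
    · intro v
      exact c_list hp5 v
    · intro _
      exact ⟨c2, c1, [c3], rfl, 1, le_rfl, by norm_num, c12_trans hp hp5⟩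
  refine H.congr (eq3 p) ?_ ?_
  · intro v
    unfold StdE
    have h3 : (univ : Finset (Fin 3)).val = (([0, 1, 2] : List (Fin 3)) : Multiset (Fin 3)) := rfl
    rw [h3, Multiset.map_coe, Multiset.map_coe]
    congr 1
    simp only [List.map_cons, List.map_nil]
    congr 1
    · funext i
      fin_cases i <;> simp [Pi.single_apply] <;> rfl
    congr 1
    · funext i
      fin_cases i <;> simp [Pi.single_apply] <;> rfl
    congr 1
    · funext i
      fin_cases i <;> simp [Pi.single_apply] <;> rfl
  · intro v
    unfold StdG SS
    rw [Fin.sum_univ_three]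
    rfl

/-- **The directed torus `C_p^t` decomposes into directed Hamiltonian cycles**, `p ≥ 5` prime. -/
theorem hd_all {p : ℕ} [NeZero p] (hp : p.Prime) (hp5 : 5 ≤ p) :
    ∀ t : ℕ, 1 ≤ t → HD p t (StdE p (Fin t)) (StdG p (Fin t)) := by
  intro t
  induction t using Nat.strong_induction_on with
  | _ t ih =>
    intro ht
    rcases Nat.even_or_odd t with ⟨m, hm⟩ | ⟨m, hm⟩
    · have h := (ih m (by omega) (by omega))
      have h2 := std_prod (HD.even hp hp5 (by omega) h h)
      subst hm
      rw [two_mul] at h2
      exact h2
    · by_cases h0 : m = 0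
      · subst h0
        simp only [mul_zero, zero_add] at hm
        subst hm
        exact hd_one
      · by_cases h1 : m = 1
        · subst h1
          have : t = 3 := by omega
          subst this
          exact hd_three hp hp5
        · have h2 := ih m (by omega) (by omega)
          have h3 := ih (m + 1) (by omega) (by omega)
          have h4 := std_prod (HD.odd hp hp5 (by omega) h3 h2)
          have e : m + 1 + m = t := by omega
          have e2 : 2 * m + 1 = t := by omega
          rw [e, e2] at h4
          exact h4

end Pool.Agent.U503.VS
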