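import Mathlib

/-!
# Counting on lines; half sets
-/

set_option autoImplicit false

namespace Pool.Agent.U503.VS

open Finset Module

/-- The number of elements of `S` in a subspace, when every line misses two. -/
theorem line_count {p : ℕ} [Fact p.Prime] (hp5 : 5 ≤ p) {A : Type} [AddCommGroup A]
    [Module (ZMod p) A] [Finite A] [DecidableEq A] (S : Finset A) (h0 : (0 : A) ∉ S)
    (hneg : ∀ s ∈ S, -s ∈ S) (hline : ∀ x : A, x ≠ 0 → ∃ c : ZMod p, c ≠ 0 ∧ c • x ∉ S)
    (W : Submodule (ZMod p) A) (Q : Finset A) (hQS : Q ⊆ S) (hQW : ∀ x ∈ Q, x ∈ W) :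
    ((p : ℝ) - 1) * Q.card ≤ ((p : ℝ) ^ (finrank (ZMod p) W) - 1) * (p - 3) := by
  classical
  have := Fintype.ofFinite A
  set U : Finset (ZMod p) := univ.erase 0 with hU
  set Z : Finset A := (univ.filter (fun x => x ∈ W)).erase 0 with hZ
  have hUcard : U.card = p - 1 := by
    rw [hU, card_erase_of_mem (mem_univ _), card_univ, ZMod.card]
  have hZcard : Z.card = p ^ (finrank (ZMod p) W) - 1 := by
    rw [hZ, card_erase_of_mem (mem_filter.2 ⟨mem_univ _, W.zero_mem⟩)]
    congr 1
    have h1 : Nat.card W = p ^ (finrank (ZMod p) W) := by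
      have := Module.natCard_eq_pow_finrank (K := ZMod p) (V := W)
      rw [this, Nat.card_eq_fintype_card, ZMod.card]
    rw [← h1, Nat.card_eq_fintype_card, Fintype.card_subtype]
  have h2 : ∑ c ∈ U, Q.card ≤ ∑ c ∈ U, (Z.filter (fun x => c • x ∈ S)).card := by
    refine sum_le_sum fun c hc => ?_
    have hc0 : c ≠ 0 := (mem_erase.1 hc).1
    refine card_le_card_of_injOn (fun x => c⁻¹ • x) ?_ ?_
    · intro x hx
      have hx' : x ∈ Q := hx
      have hx0 : x ≠ 0 := fun h => h0 (h ▸ hQS hx')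
      simp only [coe_filter, Set.mem_setOf_eq]
      refine ⟨mem_erase.2 ⟨?_, mem_filter.2 ⟨mem_univ _, W.smul_mem _ (hQW x hx')⟩⟩, ?_⟩
      · exact smul_ne_zero (inv_ne_zero hc0) hx0
      · rw [smul_inv_smul₀ hc0]
        exact hQS hx'
    · intro x _ y _ hxy
      have := congrArg (fun z => c • z) hxy
      simpa [smul_inv_smul₀ hc0] using this
  have h3 : ∑ c ∈ U, (Z.filter (fun x => c • x ∈ S)).card =
      ∑ x ∈ Z, (U.filter (fun c => c • x ∈ S)).card := by
    simp only [card_filter]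
    exact sum_comm
  have h4 : ∑ x ∈ Z, (U.filter (fun c => c • x ∈ S)).card ≤ ∑ x ∈ Z, (p - 3) := by
    refine sum_le_sum fun x hx => ?_
    have hx0 : x ≠ 0 := (mem_erase.1 hx).1
    obtain ⟨c, hc, hcS⟩ := hline x hx0
    have hc' : -c ≠ 0 := neg_ne_zero.2 hc
    have hcc : -c ≠ c := by
      intro h
      have h5 : (2 : ZMod p) * c = 0 := by
        have : (2 : ZMod p) * c = c - (-c) := by ring
        rw [this, h, sub_self]
      rcases mul_eq_zero.1 h5 with h6 | h6
      · have h7 : ((2 : ℕ) : ZMod p) = 0 := by exact_mod_cast h6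
        rw [ZMod.natCast_eq_zero_iff] at h7
        have := Nat.le_of_dvd (by norm_num) h7
        omega
      · exact hc h6
    have hsub : U.filter (fun c => c • x ∈ S) ⊆ (U.erase c).erase (-c) := by
      intro d hd
      obtain ⟨hd1, hd2⟩ := mem_filter.1 hd
      refine mem_erase.2 ⟨?_, mem_erase.2 ⟨?_, hd1⟩⟩
      · rintro rfl
        apply hcS
        have := hneg _ hd2
        rwa [neg_smul, neg_neg] at this
      · rintro rfl
        exact hcS hd2
    refine (card_le_card hsub).trans ?_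
    rw [card_erase_of_mem (mem_erase.2 ⟨hcc, mem_erase.2 ⟨hc', mem_univ _⟩⟩),
      card_erase_of_mem (mem_erase.2 ⟨hc, mem_univ _⟩), hUcard]
    omega
  rw [sum_const, smul_eq_mul, hUcard] at h2
  rw [sum_const, smul_eq_mul, hZcard] at h4
  have h5 : (p - 1) * Q.card ≤ (p ^ (finrank (ZMod p) W) - 1) * (p - 3) :=
    h2.trans (h3.le.trans h4)
  have h6 : (((p - 1) * Q.card : ℕ) : ℝ) ≤ (((p ^ (finrank (ZMod p) W) - 1) * (p - 3) : ℕ) : ℝ) := by
    exact_mod_cast h5
  have h7 : 1 ≤ p ^ (finrank (ZMod p) W) := Nat.one_le_pow _ _ (by omega)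
  rw [Nat.cast_mul, Nat.cast_mul, Nat.cast_sub h7, Nat.cast_sub (by omega : 1 ≤ p),
    Nat.cast_sub (by omega : 3 ≤ p)] at h6
  push_cast at h6
  exact h6

/-- A set of representatives of the pairs `{s, -s}`. -/
theorem half_set {A : Type} [AddCommGroup A] [DecidableEq A] (S : Finset A)
    (hneg : ∀ s ∈ S, -s ∈ S) (h2 : ∀ s ∈ S, -s ≠ s) :
    ∃ T ⊆ S, (∀ s ∈ S, s ∈ T ∨ -s ∈ T) ∧ (∀ s ∈ T, -s ∉ T) ∧ S.card = 2 * T.card := by
  classical
  have hne : (S.powerset.filter (fun T => ∀ s ∈ T, -s ∉ T)).Nonempty :=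
    ⟨∅, mem_filter.2 ⟨mem_powerset.2 (empty_subset _), by simp⟩⟩
  obtain ⟨T, hT, hmax⟩ := exists_max_image _ Finset.card hne
  obtain ⟨hTS, hTn⟩ := mem_filter.1 hT
  rw [mem_powerset] at hTS
  have hcov : ∀ s ∈ S, s ∈ T ∨ -s ∈ T := by
    intro s hs
    by_contra hcon
    push Not at hcon
    have h3 : insert s T ∈ S.powerset.filter (fun T => ∀ s ∈ T, -s ∉ T) := by
      refine mem_filter.2 ⟨mem_powerset.2 (insert_subset hs hTS), ?_⟩
      intro t ht ht2
      rcases mem_insert.1 ht with rfl | ht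
      · rcases mem_insert.1 ht2 with h | h
        · exact h2 _ hs h
        · exact hcon.2 h
      · rcases mem_insert.1 ht2 with h | h
        · apply hcon.2
          rw [← h, neg_neg]
          exact ht
        · exact hTn t ht h
    have h4 := hmax _ h3
    rw [card_insert_of_notMem hcon.1] at h4
    omega
  refine ⟨T, hTS, hcov, hTn, ?_⟩
  have h5 : S = T ∪ T.image (fun x => -x) := by
    ext s
    rw [mem_union, mem_image]
    constructor
    · intro hs
      rcases hcov s hs with h | h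
      · exact Or.inl h
      · exact Or.inr ⟨-s, h, neg_neg s⟩
    · rintro (h | ⟨t, ht, rfl⟩)
      · exact hTS h
      · exact hneg t (hTS ht)
  have h6 : Disjoint T (T.image (fun x => -x)) := by
    rw [Finset.disjoint_left]
    intro s hs hs2
    obtain ⟨t, ht, h⟩ := mem_image.1 hs2
    exact hTn t ht (by rw [h]; exact hs)
  rw [h5, card_union_of_disjoint h6, card_image_of_injective _ neg_injective]
  ring

end Pool.Agent.U503.VS
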