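import Pool.Agent.U503.VS.All
import Pool.Agent.Y647.LAC.Transfer

/-!
# Linearly independent families: decomposition of the Cayley graph with small load
-/

set_option autoImplicit false

namespace Pool.Agent.U503.VS

open Finset Function SimpleGraph Pool.Agent.W111.LAR Pool.Agent.TH486.LAC Pool.Agent.Y647.LAC

/-- The Cayley graph of `± Y`. -/
def GrS {A : Type} [AddCommGroup A] (Y : Finset A) : SimpleGraph A where
  Adj a b := a ≠ b ∧ (b - a ∈ Y ∨ a - b ∈ Y)
  symm := ⟨fun _ _ h => ⟨h.1.symm, h.2.symm⟩⟩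
  loopless := ⟨fun _ h => h.1 rfl⟩

/-- The graph of a map. -/
def MG {A : Type} (K : A → A) : SimpleGraph A where
  Adj a b := a ≠ b ∧ (b = K a ∨ a = K b)
  symm := ⟨fun _ _ h => ⟨h.1.symm, h.2.symm⟩⟩
  loopless := ⟨fun _ h => h.1 rfl⟩

theorem MG_deg {A : Type} [Finite A] {K : A → A} (hK : Injective K) (a : A) :
    ((MG K).neighborSet a).ncard ≤ 2 := by
  classical
  have h1 : (MG K).neighborSet a ⊆ {K a} ∪ {b | a = K b} := by
    intro b hb
    rcases hb.2 with h | h
    · exact Or.inl h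
    · exact Or.inr h
  have h2 : ({b | a = K b} : Set A).ncard ≤ 1 := by
    rw [Set.ncard_le_one_iff]
    intro x y hx hy
    exact hK (hx.symm.trans hy)
  calc ((MG K).neighborSet a).ncard ≤ ({K a} ∪ {b | a = K b} : Set A).ncard :=
        Set.ncard_le_ncard h1 (Set.toFinite _)
    _ ≤ ({K a} : Set A).ncard + ({b | a = K b} : Set A).ncard := Set.ncard_union_le _ _
    _ ≤ 1 + 1 := by rw [Set.ncard_singleton]; omega
    _ = 2 := rfl

theorem MG_reach {A : Type} {K : A → A} (a : A) (m : ℕ) : (MG K).Reachable a (K^[m] a) := by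
  induction m with
  | zero => exact Reachable.refl _
  | succ m ih =>
    rw [iterate_succ_apply']
    refine ih.trans ?_
    by_cases h : K^[m] a = K (K^[m] a)
    · rw [← h]
    · exact Adj.reachable ⟨h, Or.inl rfl⟩

section

variable {p t : ℕ} {A : Type} [AddCommGroup A]

/-- The map `κ` of `F_p ^ t` copied to the cosets. -/
def lf (φ : (Fin t → ZMod p) →+ A) (ψ : A →+ (Fin t → ZMod p))
    (κ : (Fin t → ZMod p) → (Fin t → ZMod p)) (a : A) : A := a + φ (κ (ψ a) - ψ a)

variable {φ : (Fin t → ZMod p) →+ A} {ψ : A →+ (Fin t → ZMod p)} (h : ∀ v, ψ (φ v) = v)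
  {κ : (Fin t → ZMod p) → (Fin t → ZMod p)}

include h

theorem lf_psi (a : A) : ψ (lf φ ψ κ a) = κ (ψ a) := by
  unfold lf
  rw [map_add, h, add_sub_cancel]

theorem lf_inj (hκ : Injective κ) : Injective (lf φ ψ κ) := by
  intro a b hab
  have h1 : ψ a = ψ b := hκ (by
    rw [← lf_psi h (κ := κ) a, ← lf_psi h (κ := κ) b, hab])
  unfold lf at hab
  rw [h1] at hab
  exact add_right_cancel hab

theorem lf_iter (m : ℕ) (a : A) : (lf φ ψ κ)^[m] a = a + φ (κ^[m] (ψ a) - ψ a) ∧
    ψ ((lf φ ψ κ)^[m] a) = κ^[m] (ψ a) := by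
  induction m with
  | zero => simp
  | succ m ih =>
    rw [iterate_succ_apply', iterate_succ_apply']
    refine ⟨?_, ?_⟩
    · have e : lf φ ψ κ ((lf φ ψ κ)^[m] a) = (lf φ ψ κ)^[m] a +
        φ (κ (ψ ((lf φ ψ κ)^[m] a)) - ψ ((lf φ ψ κ)^[m] a)) := rfl
      rw [e, ih.2, ih.1, add_assoc, ← map_add]
      congr 2
      abel
    · rw [lf_psi h, ih.2]

theorem lf_size [NeZero p] [Finite A] (hκ : Trans κ) (a : A) : p ^ t ≤ csize (MG (lf φ ψ κ)) a := by
  unfold csize
  have h1 : (Set.range (fun w : Fin t → ZMod p => a + φ (w - ψ a))) ⊆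
      {b | (MG (lf φ ψ κ)).Reachable a b} := by
    rintro _ ⟨w, rfl⟩
    obtain ⟨m, hm⟩ := hκ (ψ a) w
    have h2 := (lf_iter h (κ := κ) m a).1
    rw [hm] at h2
    show (MG (lf φ ψ κ)).Reachable a (a + φ (w - ψ a))
    rw [← h2]
    exact MG_reach a m
  have h2 : Injective (fun w : Fin t → ZMod p => a + φ (w - ψ a)) := by
    intro w w' hw
    have h3 := add_left_cancel hw
    have h4 : ψ (φ (w - ψ a)) = ψ (φ (w' - ψ a)) := by rw [h3]
    rw [h, h] at h4
    exact sub_left_injective h4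
  have h3 : p ^ t = (Set.univ : Set (Fin t → ZMod p)).ncard := by
    rw [Set.ncard_univ, Nat.card_eq_fintype_card, Fintype.card_fun, ZMod.card, Fintype.card_fin]
  rw [h3, ← Set.ncard_image_of_injective _ h2, Set.image_univ]
  exact Set.ncard_le_ncard h1 (Set.toFinite _)

end

theorem lw_family {p t : ℕ} [Fact p.Prime] (hp5 : 5 ≤ p) (ht : 1 ≤ t) {A : Type} [AddCommGroup A]
    [Module (ZMod p) A] [Finite A] (I : Fin t → A) (hI : LinearIndependent (ZMod p) I)
    (G : SimpleGraph A) (hG : ∀ a b, G.Adj a b ↔ a ≠ b ∧ ∃ i, b = a + I i ∨ a = b + I i) :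
    LW G t (2 * t / (p : ℝ) ^ t) := by
  classical
  have hp : p.Prime := Fact.out
  set Φ := Fintype.linearCombination (ZMod p) I with hΦ
  have hinj : LinearMap.ker Φ = ⊥ := by
    rw [LinearMap.ker_eq_bot]
    exact hI.fintypeLinearCombination_injective
  obtain ⟨Ψ, hΨ⟩ := LinearMap.exists_leftInverse_of_injective Φ hinj
  have hle : ∀ v, Ψ.toAddMonoidHom (Φ.toAddMonoidHom v) = v := by
    intro v
    have := LinearMap.congr_fun hΨ v
    simpa using this
  obtain ⟨L, hL, hT, hE, -⟩ := (hd_all hp hp5 t ht).ex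
  have hsing : ∀ i, Φ (Pi.single i 1) = I i := by
    intro i
    rw [hΦ, Fintype.linearCombination_apply_single, one_smul]
  -- the values of the maps
  have hval1 : ∀ κ ∈ L, ∀ v, ∃ i, κ v = v + Pi.single i 1 := by
    intro κ hκ v
    have h1 : κ v ∈ StdE p (Fin t) v := by
      rw [← hE v, Multiset.mem_coe]
      exact List.mem_map.2 ⟨κ, hκ, rfl⟩
    unfold StdE at h1
    obtain ⟨i, _, hi⟩ := Multiset.mem_map.1 h1
    exact ⟨i, hi.symm⟩
  have hval2 : ∀ v i, ∃ κ ∈ L, κ v = v + Pi.single i 1 := by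
    intro v i
    have h1 : v + Pi.single i 1 ∈ StdE p (Fin t) v :=
      Multiset.mem_map.2 ⟨i, mem_univ i, rfl⟩
    rw [← hE v, Multiset.mem_coe] at h1
    exact List.mem_map.1 h1
  have hlf : ∀ κ : (Fin t → ZMod p) → (Fin t → ZMod p), ∀ a i,
      κ (Ψ a) = Ψ a + Pi.single i 1 →
      lf Φ.toAddMonoidHom Ψ.toAddMonoidHom κ a = a + I i := by
    intro κ a i h1
    unfold lf
    show a + Φ (κ (Ψ a) - Ψ a) = a + I i
    rw [h1, add_sub_cancel_left, hsing]
  refine ⟨Fin L.length, inferInstance,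
    fun j => MG (lf Φ.toAddMonoidHom Ψ.toAddMonoidHom (L.get j)), by simp [hL], ?_, ?_, ?_⟩
  · intro j a
    exact MG_deg (lf_inj hle (hT _ (List.get_mem L j)).inj) a
  · intro a
    have hpt : (0 : ℝ) < (p : ℝ) ^ t := by
      have : (0 : ℝ) < p := by exact_mod_cast hp.pos
      positivity
    have h1 : ∀ j ∈ (univ : Finset (Fin L.length)), (2 : ℝ) /
        csize (MG (lf Φ.toAddMonoidHom Ψ.toAddMonoidHom (L.get j))) a ≤ 2 / (p : ℝ) ^ t := by
      intro j _
      have h2 : ((p ^ t : ℕ) : ℝ) ≤ csize (MG (lf Φ.toAddMonoidHom Ψ.toAddMonoidHom (L.get j))) a := by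
        exact_mod_cast lf_size hle (hT _ (List.get_mem L j)) a
      rw [Nat.cast_pow] at h2
      exact div_le_div_of_nonneg_left (by norm_num) hpt h2
    refine (sum_le_sum h1).trans (le_of_eq ?_)
    rw [sum_const, card_univ, Fintype.card_fin, hL, nsmul_eq_mul]
    ring
  · ext a b
    rw [hG, iSup_adj]
    constructor
    · rintro ⟨hne, i, hi | hi⟩
      · obtain ⟨κ, hκ, hκ2⟩ := hval2 (Ψ a) i
        obtain ⟨j, hj⟩ := List.get_of_mem hκ
        refine ⟨j, hne, Or.inl ?_⟩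
        rw [hj, hlf κ a i hκ2, hi]
      · obtain ⟨κ, hκ, hκ2⟩ := hval2 (Ψ b) i
        obtain ⟨j, hj⟩ := List.get_of_mem hκ
        refine ⟨j, hne, Or.inr ?_⟩
        rw [hj, hlf κ b i hκ2, hi]
    · rintro ⟨j, hne, hi | hi⟩
      · obtain ⟨i, hi2⟩ := hval1 _ (List.get_mem L j) (Ψ a)
        exact ⟨hne, i, Or.inl (by rw [hi, hlf _ a i hi2])⟩
      · obtain ⟨i, hi2⟩ := hval1 _ (List.get_mem L j) (Ψ b)
        exact ⟨hne, i, Or.inr (by rw [hi, hlf _ b i hi2])⟩

/-- The Cayley graph of an independent set. -/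
theorem lw_ind {p : ℕ} [Fact p.Prime] (hp5 : 5 ≤ p) {A : Type} [AddCommGroup A]
    [Module (ZMod p) A] [Finite A] (Y : Finset A)
    (hY : LinearIndependent (ZMod p) (fun y : Y => (y : A))) :
    LW (GrS Y) Y.card (2 * Y.card / (p : ℝ) ^ Y.card) := by
  rcases Nat.eq_zero_or_pos Y.card with h0 | h0
  · rw [h0]
    have h1 : Y = ∅ := card_eq_zero.1 h0
    have h2 : GrS Y = ⊥ := by
      ext a b
      rw [h1]
      simp [GrS]
    rw [h2]
    have := LW.bot (V := A)
    simpa using this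
  · have e := Y.equivFin
    refine lw_family hp5 h0 (fun i => ((e.symm i : Y) : A)) (hY.comp _ e.symm.injective) _ ?_
    intro a b
    show a ≠ b ∧ (b - a ∈ Y ∨ a - b ∈ Y) ↔ _
    constructor
    · rintro ⟨hne, h | h⟩
      · refine ⟨hne, e ⟨_, h⟩, Or.inl ?_⟩
        simp
      · refine ⟨hne, e ⟨_, h⟩, Or.inr ?_⟩
        simp
    · rintro ⟨hne, i, h | h⟩
      · refine ⟨hne, Or.inl ?_⟩
        rw [h, add_sub_cancel_left]
        exact (e.symm i).2
      · refine ⟨hne, Or.inr ?_⟩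
        rw [h, add_sub_cancel_left]
        exact (e.symm i).2

theorem lw_iSup {V : Type} {k : ℕ} (G : Fin k → SimpleGraph V) (N : Fin k → ℕ) (c : Fin k → ℝ)
    (h : ∀ j, LW (G j) (N j) (c j)) : LW (⨆ j, G j) (∑ j, N j) (∑ j, c j) := by
  classical
  have key : ∀ s : Finset (Fin k), LW (⨆ j ∈ s, G j) (∑ j ∈ s, N j) (∑ j ∈ s, c j) := by
    intro s
    induction s using Finset.induction_on with
    | empty => simpa using LW.bot (V := V)
    | insert a s ha ih =>
      rw [Finset.iSup_insert, sum_insert ha, sum_insert ha]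
      exact (h a).sup ih
  have := key univ
  simpa using this

end Pool.Agent.U503.VS
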