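import Mathlib

/-!
# The load of an equitable partition
-/

set_option autoImplicit false

namespace Pool.Agent.U503.VS

open Finset

theorem sq_le_pow {p : ℕ} (hp : 5 ≤ p) : ∀ s : ℕ, 1 ≤ s → s ^ 2 * p ≤ p ^ s := by
  intro s hs
  induction s, hs using Nat.le_induction with
  | base => simp
  | succ s hs ih =>
    have h1 : (s + 1) ^ 2 ≤ 4 * s ^ 2 := by nlinarith
    calc (s + 1) ^ 2 * p ≤ 4 * s ^ 2 * p := Nat.mul_le_mul_right _ h1
      _ = 4 * (s ^ 2 * p) := by ring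
      _ ≤ p * p ^ s := Nat.mul_le_mul (by omega) ih
      _ = p ^ (s + 1) := by ring

theorem four_sq {p : ℕ} (hp : 5 ≤ p) : ∀ s : ℕ, 2 ≤ s → 4 * s ^ 2 ≤ p ^ s := by
  intro s hs
  induction s, hs using Nat.le_induction with
  | base => nlinarith
  | succ s hs ih =>
    have h1 : (s + 1) ^ 2 ≤ 4 * s ^ 2 := by nlinarith
    calc 4 * (s + 1) ^ 2 ≤ 4 * (4 * s ^ 2) := Nat.mul_le_mul_left _ h1
      _ ≤ p * p ^ s := Nat.mul_le_mul (by omega) ih
      _ = p ^ (s + 1) := by ring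

theorem load_anti {p : ℕ} (hp : 5 ≤ p) {a : ℕ} (ha : 1 ≤ a) : ∀ b : ℕ, a ≤ b →
    (2 * b : ℝ) / (p : ℝ) ^ b ≤ (2 * a : ℝ) / (p : ℝ) ^ a := by
  intro b hb
  have hp' : (5 : ℝ) ≤ p := by exact_mod_cast hp
  have hp0 : (0 : ℝ) < p := by linarith
  induction b, hb using Nat.le_induction with
  | base => exact le_rfl
  | succ b hb ih =>
    refine le_trans ?_ ih
    have hb1 : (1 : ℝ) ≤ b := by exact_mod_cast ha.trans hb
    rw [div_le_div_iff₀ (by positivity) (by positivity), pow_succ]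
    push_cast
    have hpb : (0 : ℝ) < (p : ℝ) ^ b := by positivity
    have h1 : (b : ℝ) + 1 ≤ b * p := by nlinarith
    have h2 := mul_le_mul_of_nonneg_right h1 hpb.le
    nlinarith

theorem load_one {p : ℕ} (hp : 5 ≤ p) (a : ℕ) : (2 * a : ℝ) / (p : ℝ) ^ a ≤ 2 / 5 := by
  have hp' : (5 : ℝ) ≤ p := by exact_mod_cast hp
  rcases Nat.eq_zero_or_pos a with h | h
  · subst h; norm_num
  · refine (load_anti hp le_rfl a h).trans ?_
    rw [Nat.cast_one, pow_one, mul_one, div_le_div_iff₀ (by linarith) (by norm_num)]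
    linarith

/-- Sets missing two elements of every line satisfy the numerical hypothesis. -/
theorem num_line {p ρ n0 x : ℕ} (hp : 5 ≤ p) (hx : x + 1 ≤ ρ)
    (h3 : 2 * ((p : ℝ) - 1) * n0 ≤ ((p : ℝ) ^ ρ - 1) * (p - 3)) :
    2 * n0 + 2 * (ρ - 1) * (p - 1) * x ≤ p ^ ρ := by
  have hp' : (5 : ℝ) ≤ p := by exact_mod_cast hp
  have hp0 : (0 : ℝ) < p := by linarith
  obtain ⟨σ, rfl⟩ : ∃ σ, ρ = σ + 1 := ⟨ρ - 1, by omega⟩
  have hxσ : x ≤ σ := by omega
  have hxσ' : (x : ℝ) ≤ σ := by exact_mod_cast hxσ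
  have hfin : (σ : ℝ) ^ 2 * p ^ 2 ≤ (p : ℝ) ^ (σ + 1) := by
    rcases Nat.eq_zero_or_pos σ with h | h
    · subst h; simp
    · have h4 := sq_le_pow hp σ h
      have h5 : ((σ : ℝ)) ^ 2 * p ≤ (p : ℝ) ^ σ := by exact_mod_cast h4
      have h6 := mul_le_mul_of_nonneg_right h5 hp0.le
      calc (σ : ℝ) ^ 2 * (p : ℝ) ^ 2 = σ ^ 2 * p * p := by ring
        _ ≤ (p : ℝ) ^ σ * p := h6
        _ = (p : ℝ) ^ (σ + 1) := (pow_succ _ _).symm
  rw [Nat.add_sub_cancel]
  have hgoal : ((p : ℝ) - 1) * (2 * n0 + 2 * σ * (p - 1) * x) ≤ (p - 1) * (p : ℝ) ^ (σ + 1) := by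
    have e1 : 2 * (σ : ℝ) * (p - 1) * x ≤ 2 * σ * (p - 1) * σ :=
      mul_le_mul_of_nonneg_left hxσ' (by
        have : (0 : ℝ) ≤ σ := Nat.cast_nonneg _
        have h7 : (0 : ℝ) ≤ p - 1 := by linarith
        positivity)
    have e2 : ((p : ℝ) - 1) * (2 * n0 + 2 * σ * (p - 1) * x) ≤
        (p - 1) * (2 * n0 + 2 * σ * (p - 1) * σ) :=
      mul_le_mul_of_nonneg_left (by linarith) (by linarith)
    have e3 : ((p : ℝ) - 1) ^ 2 ≤ p ^ 2 := by nlinarith
    have e4 : (σ : ℝ) ^ 2 * (p - 1) ^ 2 ≤ σ ^ 2 * p ^ 2 :=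
      mul_le_mul_of_nonneg_left e3 (sq_nonneg _)
    nlinarith
  have h8 := le_of_mul_le_mul_left hgoal (by linarith)
  have h9 : ((2 * n0 + 2 * σ * (p - 1) * x : ℕ) : ℝ) ≤ ((p ^ (σ + 1) : ℕ) : ℝ) := by
    push_cast [Nat.cast_sub (by omega : 1 ≤ p)]
    exact h8
  exact_mod_cast h9

/-- The numerical lemma. -/
theorem num {p k ρ n0 : ℕ} (hp : 5 ≤ p) (r : Fin k → ℕ) (hρ : 1 ≤ ρ)
    (hbal : ∀ i j, r i ≤ r j + 1) (h1 : n0 ≤ ∑ j, min ρ (r j)) (h2 : k * ρ + 1 ≤ n0 + ρ)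
    (hle : n0 ≤ k * ρ) (h3 : 2 * n0 + 2 * (ρ - 1) * (p - 1) * (k * ρ - n0) ≤ p ^ ρ) :
    ∑ j, (2 * (r j) : ℝ) / (p : ℝ) ^ (r j) ≤ 1 := by
  have hp' : (5 : ℝ) ≤ p := by exact_mod_cast hp
  have hp0 : (0 : ℝ) < p := by linarith
  have hpr : (0 : ℝ) < (p : ℝ) ^ ρ := by positivity
  by_cases hk2 : k ≤ 2
  · calc ∑ j, (2 * (r j) : ℝ) / (p : ℝ) ^ (r j) ≤ ∑ _j : Fin k, (2 / 5 : ℝ) :=
          sum_le_sum fun j _ => load_one hp (r j)
      _ = k * (2 / 5) := by rw [sum_const, card_univ, Fintype.card_fin, nsmul_eq_mul]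
      _ ≤ 2 * (2 / 5) := by
          have : (k : ℝ) ≤ 2 := by exact_mod_cast hk2
          linarith
      _ ≤ 1 := by norm_num
  push Not at hk2
  by_cases hI : ∀ j, ρ ≤ r j + 1
  · -- all parts are large
    set x := (univ.filter (fun j => r j + 1 = ρ)).card with hx
    set s : ℝ := 2 * (ρ - 1) * p - 2 * ρ with hs
    have hx1 : n0 + x ≤ k * ρ := by
      have e1 : ∑ j, (min ρ (r j) + if r j + 1 = ρ then 1 else 0) = k * ρ := by
        rw [sum_congr rfl (g := fun _ => ρ) (fun j _ => by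
          have := hI j
          split_ifs with h
          · omega
          · omega)]
        rw [sum_const, card_univ, Fintype.card_fin, smul_eq_mul]
      rw [sum_add_distrib] at e1
      have e2 : x = ∑ j : Fin k, (if r j + 1 = ρ then 1 else 0) := by
        rw [hx, card_filter]
      rw [← e2] at e1
      omega
    have hterm : ∀ j ∈ (univ : Finset (Fin k)), (2 * (r j) : ℝ) / (p : ℝ) ^ (r j) ≤
        (2 * ρ + if r j + 1 = ρ then s else 0) / (p : ℝ) ^ ρ := by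
      intro j _
      split_ifs with h
      · have e1 : (ρ : ℝ) = r j + 1 := by
          rw [← h]; push_cast; ring
        have e2 : (p : ℝ) ^ ρ = (p : ℝ) ^ (r j) * p := by rw [← h, pow_succ]
        rw [e2, hs, e1]
        apply le_of_eq
        field_simp
        ring
      · rw [add_zero]
        exact load_anti hp hρ (r j) (by have := hI j; omega)
    refine (sum_le_sum hterm).trans ?_
    rw [← sum_div, sum_add_distrib, sum_const, card_univ, Fintype.card_fin, nsmul_eq_mul,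
      ← sum_filter, sum_const, nsmul_eq_mul, ← hx, div_le_one hpr]
    have hxd : (x : ℝ) ≤ k * ρ - n0 := by
      have : ((n0 + x : ℕ) : ℝ) ≤ ((k * ρ : ℕ) : ℝ) := by exact_mod_cast hx1
      push_cast at this
      linarith
    have hxs : (x : ℝ) * s ≤ (k * ρ - n0) * s := by
      rcases Nat.eq_or_lt_of_le hρ with h | h
      · have e0 : k * ρ = n0 := by omega
        have e1 : x = 0 := by omega
        have e2 : (k : ℝ) * ρ = n0 := by exact_mod_cast e0
        rw [e1, e2]; simp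
      · have e1 : (2 : ℝ) ≤ ρ := by exact_mod_cast h
        have e2 : 0 ≤ s := by
          rw [hs]; nlinarith
        exact mul_le_mul_of_nonneg_right hxd e2
    have h3' : (2 * n0 + 2 * (ρ - 1) * (p - 1) * (k * ρ - n0) : ℝ) ≤ (p : ℝ) ^ ρ := by
      have : ((2 * n0 + 2 * (ρ - 1) * (p - 1) * (k * ρ - n0) : ℕ) : ℝ) ≤ ((p ^ ρ : ℕ) : ℝ) := by
        exact_mod_cast h3
      push_cast [Nat.cast_sub hρ, Nat.cast_sub (by omega : 1 ≤ p), Nat.cast_sub hle] at this
      exact this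
    calc (k : ℝ) * (2 * ρ) + x * s ≤ k * (2 * ρ) + (k * ρ - n0) * s := by linarith
      _ = 2 * n0 + 2 * (ρ - 1) * (p - 1) * (k * ρ - n0) := by rw [hs]; ring
      _ ≤ (p : ℝ) ^ ρ := h3'
  · -- some part is small
    push Not at hI
    obtain ⟨i0, hi0⟩ := hI
    have hne : (univ : Finset (Fin k)).Nonempty := ⟨i0, mem_univ _⟩
    obtain ⟨j0, _, hj0⟩ := exists_min_image univ r hne
    set a := r j0 with ha
    have ha1 : a + 2 ≤ ρ := by
      have := hj0 i0 (mem_univ _)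
      omega
    have hsum : n0 + 1 ≤ k * (a + 1) := by
      have e1 : ∑ j, (min ρ (r j) + if j = j0 then 1 else 0) ≤ ∑ _j : Fin k, (a + 1) := by
        refine sum_le_sum fun j _ => ?_
        have h4 := hbal j j0
        split_ifs with h
        · rw [h]; omega
        · omega
      rw [sum_add_distrib, sum_ite_eq' univ j0 (fun _ => 1), if_pos (mem_univ _), sum_const,
        card_univ, Fintype.card_fin, smul_eq_mul] at e1
      omega
    have hka : k + 2 ≤ ρ := by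
      have h4 : k * (a + 1) ≤ k * (ρ - 1) := Nat.mul_le_mul_left _ (by omega)
      have h5 : k * (ρ - 1) + k = k * ρ := by
        obtain ⟨σ, rfl⟩ : ∃ σ, ρ = σ + 1 := ⟨ρ - 1, by omega⟩
        rw [Nat.add_sub_cancel]; ring
      omega
    have hρa : ρ ≤ 2 * a := by
      by_contra hcon
      push Not at hcon
      have h4 : k * (2 * (a + 1)) ≤ k * (ρ + 1) := Nat.mul_le_mul_left _ (by omega)
      have h5 : k * (2 * (a + 1)) = 2 * (k * (a + 1)) := by ring
      have h6 : k * (ρ + 1) = k * ρ + k := by ring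
      have h7 : 2 * ρ ≤ k * ρ := Nat.mul_le_mul_right _ (by omega)
      have h8 : 3 * ρ ≤ k * ρ := Nat.mul_le_mul_right _ (by omega)
      omega
    have ha2 : 2 ≤ a := by omega
    have h4 : ∀ j ∈ (univ : Finset (Fin k)), (2 * (r j) : ℝ) / (p : ℝ) ^ (r j) ≤
        (2 * a : ℝ) / (p : ℝ) ^ a := fun j _ => load_anti hp (by omega) (r j) (hj0 j (mem_univ _))
    refine (sum_le_sum h4).trans ?_
    rw [sum_const, card_univ, Fintype.card_fin, nsmul_eq_mul, ← mul_div_assoc,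
      div_le_one (by positivity)]
    have h5 : 4 * a ^ 2 ≤ p ^ a := four_sq hp a ha2
    have h6 : k * (2 * a) ≤ p ^ a := by
      have : k ≤ 2 * a := by omega
      calc k * (2 * a) ≤ 2 * a * (2 * a) := Nat.mul_le_mul_right _ this
        _ = 4 * a ^ 2 := by ring
        _ ≤ p ^ a := h5
    exact_mod_cast h6

end Pool.Agent.U503.VS
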