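import Pool.Agent.U503.VS.Fam
import Pool.Agent.U503.VS.Num
import Pool.Agent.U503.VS.Cnt
import Pool.Agent.TH486.LAC.Horn

/-!
# Cayley graphs of vector spaces over `F_p`
-/

set_option autoImplicit false

namespace Pool.Agent.U503.VS

open Finset Module SimpleGraph Pool.Agent.W111.LAR Pool.Agent.TH486.LAC Pool.Agent.Y647.LAC

theorem ind_lin {p : ℕ} [Fact p.Prime] {A : Type} [AddCommGroup A] [Module (ZMod p) A]
    {Y : Finset A} (h : Ind (ZMod p) Y) : LinearIndependent (ZMod p) (fun y : Y => (y : A)) := by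
  have this : Set.range (fun y : Y => (y : A)) = (Y : Set A) := by
    ext x
    simp
  rw [linearIndependent_iff_card_eq_finrank_span, this]
  unfold Ind at h
  rw [Fintype.card_coe, ← h]
  rfl

/-- `S` is the connection set of a simple Cayley graph. -/
theorem conn_facts {A : Type} [AddCommGroup A] {S : Finset A} {X : SimpleGraph A}
    (hX : ∀ v w, X.Adj v w ↔ w - v ∈ S) : (0 : A) ∉ S ∧ ∀ s ∈ S, -s ∈ S := by
  constructor
  · intro h
    have := (hX 0 0).2 (by simpa using h)
    exact X.irrefl this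
  · intro s hs
    have h1 := ((hX 0 s).2 (by simpa using hs)).symm
    have h2 := (hX s 0).1 h1
    simpa using h2

theorem no_two {p : ℕ} [Fact p.Prime] (hp5 : 5 ≤ p) {A : Type} [AddCommGroup A]
    [Module (ZMod p) A] {s : A} (hs : s ≠ 0) : -s ≠ s := by
  intro h
  have h3 : (2 : ZMod p) • s = 0 := by
    have : (2 : ZMod p) • s = s + s := two_smul _ _
    rw [this]
    nth_rewrite 1 [← h]
    exact neg_add_cancel s
  rcases smul_eq_zero.1 h3 with h4 | h4
  · have h7 : ((2 : ℕ) : ZMod p) = 0 := by exact_mod_cast h4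
    rw [ZMod.natCast_eq_zero_iff] at h7
    have := Nat.le_of_dvd (by norm_num) h7
    omega
  · exact hs h4

/-- The general criterion. -/
theorem ld_gen {p : ℕ} [Fact p.Prime] (hp5 : 5 ≤ p) {A : Type} [AddCommGroup A]
    [Module (ZMod p) A] [Finite A] (S : Finset A) (X : SimpleGraph A)
    (hX : ∀ v w, X.Adj v w ↔ w - v ∈ S) (hne : S.Nonempty)
    (hW : ∀ (W : Submodule (ZMod p) A) (n x : ℕ), 2 ≤ finrank (ZMod p) W →
      {s : A | s ∈ S ∧ s ∈ W}.ncard = 2 * n → x < finrank (ZMod p) W →
      finrank (ZMod p) W ∣ n + x →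
      2 * n + 2 * (finrank (ZMod p) W - 1) * (p - 1) * x ≤ p ^ (finrank (ZMod p) W)) :
    LD X (S.card / 2) := by
  classical
  have hp : p.Prime := Fact.out
  have hfd : FiniteDimensional (ZMod p) A := Module.Finite.of_finite
  obtain ⟨h0, hneg⟩ := conn_facts hX
  have h2 : ∀ s ∈ S, -s ≠ s := fun s hs => no_two hp5 (fun h => h0 (h ▸ hs))
  obtain ⟨T, hTS, hcov, hTn, hcard⟩ := half_set S hneg h2
  have hTpos : 1 ≤ T.card := by
    have := hne.card_pos
    omega
  have hrank : ∀ B ⊆ T, B.Nonempty → 1 ≤ finrank (ZMod p) ↥(Submodule.span (ZMod p) (B : Set A)) := by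
    intro B hB hBne
    obtain ⟨x, hx⟩ := hBne
    have hx0 : x ≠ 0 := fun h => h0 (h ▸ hTS (hB hx))
    have h5 : Submodule.span (ZMod p) {x} ≤ Submodule.span (ZMod p) (B : Set A) :=
      Submodule.span_mono (by simpa using hx)
    have h6 := Submodule.finrank_mono h5
    rw [finrank_span_singleton hx0] at h6
    exact h6
  have hex : ∃ k : ℕ, 0 < k ∧ ∀ B ⊆ T, B.card ≤ k * finrank (ZMod p) ↥(Submodule.span (ZMod p)
      (B : Set A)) := by
    refine ⟨T.card, hTpos, fun B hB => ?_⟩
    rcases B.eq_empty_or_nonempty with h | h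
    · rw [h]; simp
    · calc B.card ≤ T.card * 1 := by rw [mul_one]; exact card_le_card hB
        _ ≤ _ := Nat.mul_le_mul_left _ (hrank B hB h)
  obtain ⟨k, hk⟩ : ∃ k, k = Nat.find hex := ⟨_, rfl⟩
  have hk1 : 0 < k ∧ ∀ B ⊆ T, B.card ≤ k * finrank (ZMod p) ↥(Submodule.span (ZMod p)
      (B : Set A)) := hk ▸ Nat.find_spec hex
  have hA0 : ∃ B ⊆ T, 1 ≤ finrank (ZMod p) ↥(Submodule.span (ZMod p) (B : Set A)) ∧
      k * finrank (ZMod p) ↥(Submodule.span (ZMod p) (B : Set A)) + 1 ≤
        B.card + finrank (ZMod p) ↥(Submodule.span (ZMod p) (B : Set A)) := by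
    rcases Nat.lt_or_ge 1 k with h | h
    · have h5 : ¬ (0 < k - 1 ∧ ∀ B ⊆ T, B.card ≤ (k - 1) * finrank (ZMod p)
          ↥(Submodule.span (ZMod p) (B : Set A))) := Nat.find_min hex (by omega)
      push Not at h5
      obtain ⟨B, hB, hB2⟩ := h5 (by omega)
      have hBne : B.Nonempty := card_pos.1 (by omega)
      refine ⟨B, hB, hrank B hB hBne, ?_⟩
      obtain ⟨m, rfl⟩ : ∃ m, k = m + 1 := ⟨k - 1, by omega⟩
      rw [Nat.add_sub_cancel] at hB2
      rw [add_mul, one_mul]
      omega
    · have h5 : k = 1 := by omega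
      refine ⟨T, Subset.refl _, hrank T (Subset.refl _) (card_pos.1 (by omega)), ?_⟩
      rw [h5, one_mul]
      omega
  obtain ⟨B₀, hB₀T, hB1', hB2'⟩ := hA0
  -- the flat closure
  obtain ⟨B, hBdef⟩ : ∃ B, B = T.filter (fun x => x ∈ Submodule.span (ZMod p) (B₀ : Set A)) :=
    ⟨_, rfl⟩
  have hBT : B ⊆ T := by rw [hBdef]; exact filter_subset _ _
  have hB₀B : B₀ ⊆ B := by
    intro x hx
    rw [hBdef]
    exact mem_filter.2 ⟨hB₀T hx, Submodule.subset_span hx⟩
  have hspan : Submodule.span (ZMod p) (B : Set A) = Submodule.span (ZMod p) (B₀ : Set A) := by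
    apply le_antisymm
    · rw [Submodule.span_le]
      intro x hx
      rw [hBdef] at hx
      exact (mem_filter.1 (mem_coe.1 hx)).2
    · exact Submodule.span_mono (coe_subset.2 hB₀B)
  have hBcard := card_le_card hB₀B
  rw [← hspan] at hB1' hB2'
  obtain ⟨W, hWdef⟩ : ∃ W, W = Submodule.span (ZMod p) (B : Set A) := ⟨_, rfl⟩
  obtain ⟨ρ, hρ⟩ : ∃ ρ, ρ = finrank (ZMod p) W := ⟨_, rfl⟩
  have hB1 : 1 ≤ ρ := by rw [hρ, hWdef]; exact hB1'
  have hB2 : k * ρ + 1 ≤ B.card + ρ := by
    rw [hρ, hWdef]; omega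
  have hle : B.card ≤ k * ρ := by
    rw [hρ, hWdef]; exact hk1.2 B hBT
  have hcount : {s : A | s ∈ S ∧ s ∈ W}.ncard = 2 * B.card := by
    have hdis : Disjoint B (B.image (fun x => -x)) := by
      rw [Finset.disjoint_left]
      intro s hs hs2
      obtain ⟨t, ht, h⟩ := mem_image.1 hs2
      exact hTn t (hBT ht) (by rw [h]; exact hBT hs)
    have e : {s : A | s ∈ S ∧ s ∈ W} = ((B ∪ B.image (fun x => -x) : Finset A) : Set A) := by
      ext s
      rw [hBdef]
      constructor
      · rintro ⟨hs, hsW⟩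
        rw [hWdef, hspan] at hsW
        rw [mem_coe, mem_union]
        rcases hcov s hs with h | h
        · exact Or.inl (mem_filter.2 ⟨h, hsW⟩)
        · exact Or.inr (mem_image.2 ⟨-s, mem_filter.2 ⟨h, Submodule.neg_mem _ hsW⟩, neg_neg s⟩)
      · intro hs
        rw [mem_coe, mem_union] at hs
        rcases hs with h | h
        · refine ⟨hTS (mem_filter.1 h).1, ?_⟩
          rw [hWdef, hspan]
          exact (mem_filter.1 h).2
        · obtain ⟨t, ht, rfl⟩ := mem_image.1 h
          refine ⟨hneg _ (hTS (mem_filter.1 ht).1), ?_⟩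
          rw [hWdef, hspan]
          exact Submodule.neg_mem _ (mem_filter.1 ht).2
    rw [e, Set.ncard_coe_finset, card_union_of_disjoint hdis,
      card_image_of_injective _ neg_injective]
    ring
  have hmain : 2 * B.card + 2 * (ρ - 1) * (p - 1) * (k * ρ - B.card) ≤ p ^ ρ := by
    rcases Nat.eq_or_lt_of_le hB1 with h | h
    · rw [← h]
      have h5 : {s : A | s ∈ S ∧ s ∈ W}.ncard ≤ (W : Set A).ncard :=
        Set.ncard_le_ncard (fun s hs => hs.2) (Set.toFinite _)
      have h6 : (W : Set A).ncard = p ^ ρ := by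
        have h7 : Nat.card W = p ^ ρ := by
          have := Module.natCard_eq_pow_finrank (K := ZMod p) (V := W)
          rw [this, Nat.card_eq_fintype_card, ZMod.card, hρ]
        rw [← h7]
        exact (Nat.card_coe_set_eq _).symm
      rw [hcount, h6, ← h] at h5
      simpa using h5
    · have h5 := hW W B.card (k * ρ - B.card) (by omega) hcount (by omega) (by
        rw [← hρ, Nat.add_sub_cancel' hle]
        exact Dvd.intro_left _ rfl)
      rw [← hρ] at h5
      exact h5
  obtain ⟨c, hc1, hc2⟩ := equitable (K := ZMod p) hk1.1 hk1.2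
  -- the load
  have hload : ∑ j, (2 * ((T.filter (fun x => c x = j)).card : ℕ) : ℝ) /
      (p : ℝ) ^ (T.filter (fun x => c x = j)).card ≤ 1 := by
    refine num hp5 (fun j => (T.filter (fun x => c x = j)).card) hB1 hc2 ?_ hB2 hle hmain
    have h5 : B.card = ∑ j, (B.filter (fun x => c x = j)).card :=
      card_eq_sum_card_fiberwise (fun x _ => mem_univ _)
    rw [h5]
    refine sum_le_sum fun j _ => le_min ?_ ?_
    · have h6 := (ind_lin (hc1 j))
      have h7 : LinearIndependent (ZMod p) (fun y : (B.filter (fun x => c x = j) : Finset A) =>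
          (y : A)) :=
        h6.comp (fun y : (B.filter (fun x => c x = j) : Finset A) =>
          (⟨y.1, filter_subset_filter _ hBT y.2⟩ : (T.filter (fun x => c x = j) : Finset A))) (by
          intro y y' h
          have := congrArg Subtype.val h
          exact Subtype.ext this)
      have h8 := finrank_span_eq_card h7
      rw [Fintype.card_coe] at h8
      rw [← h8, hρ, hWdef]
      apply Submodule.finrank_mono
      apply Submodule.span_mono
      rintro _ ⟨y, rfl⟩
      exact (mem_filter.1 y.2).1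
    · exact card_le_card (filter_subset_filter _ hBT)
  -- the decomposition
  have hXG : X = ⨆ j, GrS (T.filter (fun x => c x = j)) := by
    ext a b
    rw [iSup_adj, hX]
    constructor
    · intro h
      have hab : a ≠ b := by
        rintro rfl
        rw [sub_self] at h
        exact h0 h
      rcases hcov _ h with h5 | h5
      · exact ⟨c (b - a), hab, Or.inl (mem_filter.2 ⟨h5, rfl⟩)⟩
      · rw [neg_sub] at h5
        exact ⟨c (a - b), hab, Or.inr (mem_filter.2 ⟨h5, rfl⟩)⟩
    · rintro ⟨j, _, h | h⟩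
      · exact hTS (mem_filter.1 h).1
      · have := hneg _ (hTS (mem_filter.1 h).1)
        rwa [neg_sub] at this
  have hLW := lw_iSup (fun j => GrS (T.filter (fun x => c x = j)))
    (fun j => (T.filter (fun x => c x = j)).card)
    (fun j => (2 * ((T.filter (fun x => c x = j)).card : ℕ) : ℝ) /
      (p : ℝ) ^ (T.filter (fun x => c x = j)).card)
    (fun j => lw_ind hp5 _ (ind_lin (hc1 j)))
  have hN : ∑ j, (T.filter (fun x => c x = j)).card = S.card / 2 := by
    rw [← card_eq_sum_card_fiberwise (fun x _ => mem_univ _), hcard]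
    omega
  rw [hN, ← hXG] at hLW
  exact hLW.ld hload

/-- Sets without full lines satisfy the general criterion. -/
theorem ld_line {p : ℕ} [Fact p.Prime] (hp5 : 5 ≤ p) {A : Type} [AddCommGroup A]
    [Module (ZMod p) A] [Finite A] (S : Finset A) (X : SimpleGraph A)
    (hX : ∀ v w, X.Adj v w ↔ w - v ∈ S)
    (hline : ∀ x : A, x ≠ 0 → ∃ c : ZMod p, c ≠ 0 ∧ c • x ∉ S)
    (W : Submodule (ZMod p) A) (n x : ℕ)
    (hn : {s : A | s ∈ S ∧ s ∈ W}.ncard = 2 * n) (hx : x < finrank (ZMod p) W) :
    2 * n + 2 * (finrank (ZMod p) W - 1) * (p - 1) * x ≤ p ^ (finrank (ZMod p) W) := by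
  classical
  obtain ⟨h0, hneg⟩ := conn_facts hX
  have h5 := line_count hp5 S h0 hneg hline W (S.filter (fun s => s ∈ W)) (filter_subset _ _)
    (fun x hx => (mem_filter.1 hx).2)
  have e : {s : A | s ∈ S ∧ s ∈ W} = ((S.filter (fun s => s ∈ W) : Finset A) : Set A) := by
    ext s
    simp
  rw [e, Set.ncard_coe_finset] at hn
  rw [hn] at h5
  push_cast at h5
  exact num_line hp5 hx (by linarith)

end Pool.Agent.U503.VS
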