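import Pool.Agent.U503.VS.Tri

/-!
# The constructions for two and for three cycles
-/

set_option autoImplicit false

namespace Pool.Agent.U503.VS

open Finset Function

theorem unit_of {p m a : ℕ} (hp : p.Prime) (h : ¬ p ∣ m) : IsUnit ((m : ℕ) : ZMod (p ^ a)) :=
  (ZMod.isUnit_iff_coprime m (p ^ a)).2
    (Nat.Coprime.pow_right a (Nat.Coprime.symm ((Nat.Prime.coprime_iff_not_dvd hp).2 h)))

theorem card_ne {q : ℕ} [NeZero q] :
    ((univ.filter (fun u : ZMod q => ¬ u = 0)).card : ℕ) = q - 1 := by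
  rw [filter_ne', card_erase_of_mem (mem_univ _), card_univ, ZMod.card]

theorem sel_U {X Y : Type} {n q : ℕ} (hqn : q ∣ n) (eX : X ≃ ZMod n)
    (eY : Y ≃ ZMod q) {τ : X → X} {ρ : Y → Y} (hX : ∀ x, eX (τ x) = eX x + 1)
    (hY : ∀ y, eY (ρ y) = eY y + 1) (U : X × Y → ZMod q) (J : ZMod q → Prop) [DecidablePred J]
    (v : X × Y) :
    ZMod.castHom hqn (ZMod q) (eX (sel U J τ ρ v).1) + eY (sel U J τ ρ v).2 =
      ZMod.castHom hqn (ZMod q) (eX v.1) + eY v.2 + 1 := by
  unfold sel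
  split_ifs
  · simp only [hY]; ring
  · simp only [hX, map_add, map_one]; ring

theorem sel_X {X Y : Type} {n q : ℕ} (eX : X ≃ ZMod n)
    {τ : X → X} {ρ : Y → Y} (hX : ∀ x, eX (τ x) = eX x + 1)
    (U : X × Y → ZMod q) (J : ZMod q → Prop) [DecidablePred J] (v : X × Y) :
    eX (sel U J τ ρ v).1 = eX v.1 + if J (U v) then 0 else 1 := by
  unfold sel
  split_ifs
  · simp
  · simp only [hX]

/-- Two cycles. -/
theorem pair {X Y : Type} [Fintype X] [Fintype Y] [Nonempty X] [Nonempty Y] {p a b : ℕ}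
    (hp : p.Prime) (hp5 : 5 ≤ p) (hX : Fintype.card X = p ^ a) (hY : Fintype.card Y = p ^ b)
    (hb : 1 ≤ b) (hab : b ≤ a) {τ : X → X} {ρ : Y → Y} (hτ : Trans τ) (hρ : Trans ρ) :
    ∃ σ₁ σ₂ : X × Y → X × Y, Trans σ₁ ∧ Trans σ₂ ∧ Trans (σ₁^[2] ∘ σ₂) ∧
      ∀ v, (([σ₁ v, σ₂ v] : List (X × Y)) : Multiset (X × Y)) =
        (([(τ v.1, v.2), (v.1, ρ v.2)] : List (X × Y)) : Multiset (X × Y)) := by
  have hp0 : 0 < p := by omega
  have : NeZero (p ^ a) := ⟨(pow_pos hp0 a).ne'⟩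
  have : NeZero (p ^ b) := ⟨(pow_pos hp0 b).ne'⟩
  have hqn : p ^ b ∣ p ^ a := pow_dvd_pow p hab
  obtain ⟨eX, heX, -⟩ := exists_pos (p := 1) hX (one_dvd _) hτ (fun _ => 0)
    (fun _ => Subsingleton.elim _ _)
  obtain ⟨eY, heY, -⟩ := exists_pos (p := 1) hY (one_dvd _) hρ (fun _ => 0)
    (fun _ => Subsingleton.elim _ _)
  set U : X × Y → ZMod (p ^ b) := fun v => ZMod.castHom hqn (ZMod (p ^ b)) (eX v.1) + eY v.2 with hU
  have hq1 : ¬ p ∣ p ^ b - 1 := by
    intro h
    have h1 : p ∣ p ^ b := dvd_pow_self p (by omega)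
    have h2 : 1 ≤ p ^ b := Nat.one_le_pow _ _ hp0
    have h3 : p ∣ p ^ b - (p ^ b - 1) := Nat.dvd_sub h1 h
    rw [Nat.sub_sub_self h2] at h3
    exact hp.one_lt.ne' (Nat.dvd_one.1 h3)
  refine ⟨sel U (fun u => u ≠ 0) τ ρ, sel U (fun u => u = 0) τ ρ, ?_, ?_, ?_, ?_⟩
  · refine sel_trans hqn eX eY heX heY _ ?_
    have h1 : (univ.filter (fun u : ZMod (p ^ b) => ¬ u ≠ 0)) = {0} := by
      ext u; simp
    rw [h1, card_singleton, Nat.cast_one]
    exact isUnit_one
  · refine sel_trans hqn eX eY heX heY _ ?_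
    rw [card_ne]
    exact unit_of hp hq1
  · have h3 : IsUnit (3 : ZMod (p ^ b)) := by
      have := unit_of (p := p) (m := 3) (a := b) hp (fun h => by
        have := Nat.le_of_dvd (by norm_num) h
        omega)
      exact_mod_cast this
    refine te_gen hqn eX eY _ 3 h3 (fun u => (if u = 0 then 0 else 1) +
      ((if u + 1 = 0 then 1 else 0) + (if u + 2 = 0 then 1 else 0))) ?_ ?_ ?_
    · intro v
      simp only [comp_apply, iterate_succ, iterate_zero, id_eq]
      rw [sel_U hqn eX eY heX heY, sel_U hqn eX eY heX heY, sel_U hqn eX eY heX heY]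
      ring
    · intro v
      simp only [comp_apply, iterate_succ, iterate_zero, id_eq]
      rw [sel_X eX heX, sel_X eX heX, sel_X eX heX]
      have e1 : U (sel U (fun u => u = 0) τ ρ v) = U v + 1 := sel_U hqn eX eY heX heY U _ v
      have e2 : U (sel U (fun u => u ≠ 0) τ ρ (sel U (fun u => u = 0) τ ρ v)) = U v + 1 + 1 := by
        rw [← e1]; exact sel_U hqn eX eY heX heY U _ _
      rw [e1, e2]
      have e3 : U v + 1 + 1 = U v + 2 := by ring
      rw [e3]
      simp only [ne_eq, ite_not]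
      ring
    · rw [sum_add_distrib, sum_add_distrib]
      have e1 : ∑ u : ZMod (p ^ b), (if u = 0 then (0 : ZMod (p ^ a)) else 1) =
          ((p ^ b - 1 : ℕ) : ZMod (p ^ a)) := by
        rw [sum_ite, sum_const_zero, zero_add, sum_const, nsmul_eq_mul, mul_one, card_ne]
      have e2 : ∀ c : ZMod (p ^ b), ∑ u : ZMod (p ^ b), (if u + c = 0 then (1 : ZMod (p ^ a)) else 0)
          = 1 := by
        intro c
        have : ∀ u : ZMod (p ^ b), (u + c = 0) ↔ (u = -c) := fun u => by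
          rw [eq_neg_iff_add_eq_zero]
        simp only [this]
        rw [sum_ite_eq' univ (-c) (fun _ => (1 : ZMod (p ^ a))), if_pos (mem_univ _)]
      rw [e1, e2 1, e2 2]
      have h2 : 1 ≤ p ^ b := Nat.one_le_pow _ _ hp0
      have h4 := unit_of (p := p) (m := p ^ b + 1) (a := a) hp (fun h => by
        have h1 : p ∣ p ^ b := dvd_pow_self p (by omega)
        have h3 := (Nat.dvd_add_right h1).1 h
        exact hp.one_lt.ne' (Nat.dvd_one.1 h3))
      have e4 : ((p ^ b - 1 : ℕ) : ZMod (p ^ a)) + (1 + 1) = ((p ^ b + 1 : ℕ) : ZMod (p ^ a)) := by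
        have : p ^ b + 1 = (p ^ b - 1) + 2 := by omega
        rw [this]
        push_cast
        ring
      rw [e4]
      exact h4
  · intro v
    unfold sel
    by_cases h : U v = 0
    · simp only [ne_eq, h, not_true_eq_false, if_false, if_true]
    · simp only [ne_eq, h, not_false_eq_true, if_false, if_true]
      exact Multiset.coe_eq_coe.2 (List.Perm.swap _ _ _)

/-- Three cycles. -/
theorem triple {X Y : Type} [Fintype X] [Fintype Y] [Nonempty X] [Nonempty Y] {p a b β : ℕ}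
    (hp : p.Prime) (hp5 : 5 ≤ p) (hX : Fintype.card X = p ^ a) (hY : Fintype.card Y = p ^ b)
    (hb : 1 ≤ b) (hab : b ≤ a) {τ₁ τ₂ : X → X} {ρ : Y → Y} (hτ₁ : Trans τ₁) (hτ₂ : Trans τ₂)
    (hρ : Trans ρ) (hβ1 : 1 ≤ β) (hβ2 : β ≤ 2) (hw : Trans (τ₂^[β] ∘ τ₁)) (g : X → ZMod p)
    (g' : Y → ZMod p) (hg1 : ∀ x, g (τ₁ x) = g x + 1) (hg2 : ∀ x, g (τ₂ x) = g x + 1)
    (hg' : ∀ y, g' (ρ y) = g' y + 1) :
    ∃ κ₁ κ₂ κ₃ : X × Y → X × Y, Trans κ₁ ∧ Trans κ₂ ∧ Trans κ₃ ∧
      ∀ v, (([κ₁ v, κ₂ v, κ₃ v] : List (X × Y)) : Multiset (X × Y)) =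
        (([(τ₁ v.1, v.2), (τ₂ v.1, v.2), (v.1, ρ v.2)] : List (X × Y)) : Multiset (X × Y)) := by
  have hp0 : 0 < p := by omega
  have : NeZero p := ⟨hp0.ne'⟩
  have : NeZero (p ^ a) := ⟨(pow_pos hp0 a).ne'⟩
  have : NeZero (p ^ b) := ⟨(pow_pos hp0 b).ne'⟩
  have hqn : p ^ b ∣ p ^ a := pow_dvd_pow p hab
  have hpq : p ∣ p ^ b := dvd_pow_self p (by omega)
  have hpn : p ∣ p ^ a := hpq.trans hqn
  have hqp : p ≤ p ^ b := Nat.le_of_dvd (pow_pos hp0 b) hpq
  obtain ⟨e₁, he₁, hc₁⟩ := exists_pos hX hpn hτ₁ g hg1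
  obtain ⟨e₂, he₂, hc₂⟩ := exists_pos hX hpn hτ₂ g hg2
  obtain ⟨eY, heY, hcY⟩ := exists_pos hY hpq hρ g' hg'
  set U₁ : X × Y → ZMod (p ^ b) := fun v => ZMod.castHom hqn (ZMod (p ^ b)) (e₁ v.1) + eY v.2
    with hU₁
  set U₂ : X × Y → ZMod (p ^ b) := fun v => ZMod.castHom hqn (ZMod (p ^ b)) (e₂ v.1) + eY v.2
    with hU₂
  have hcomp : ∀ z : ZMod (p ^ a), ZMod.castHom hpq (ZMod p) (ZMod.castHom hqn (ZMod (p ^ b)) z) =
      ZMod.castHom hpn (ZMod p) z := by
    intro z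
    have : (ZMod.castHom hpq (ZMod p)).comp (ZMod.castHom hqn (ZMod (p ^ b))) =
        ZMod.castHom hpn (ZMod p) := Subsingleton.elim _ _
    exact congrArg (fun f : ZMod (p ^ a) →+* ZMod p => f z) this
  have hval : ∀ u : ZMod (p ^ b), ((u.val : ℕ) : ZMod p) = ZMod.castHom hpq (ZMod p) u := by
    intro u
    conv_rhs => rw [← ZMod.natCast_zmod_val u]
    rw [map_natCast]
  have D : TD p (p ^ b) β U₁ U₂ τ₁ τ₂ ρ :=
    { hp := hp5
      hb1 := hβ1
      hb2 := hβ2
      hpq := hpq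
      h11 := fun x y => by simp only [hU₁, he₁, map_add, map_one]; ring
      h22 := fun x y => by simp only [hU₂, he₂, map_add, map_one]; ring
      h1c := fun x y => by simp only [hU₁, heY]; ring
      h2c := fun x y => by simp only [hU₂, heY]; ring
      hS := fun v => by
        rw [← ZMod.natCast_eq_natCast_iff, hval, hval]
        simp only [hU₁, hU₂, map_add, hcomp, hc₁, hc₂, hcY]
      i1 := hτ₁.inj
      i2 := hτ₂.inj
      ic := hρ.inj
      sec := fun x => ⟨eY.symm (-(ZMod.castHom hqn (ZMod (p ^ b)) (e₁ x))), by simp [hU₁]⟩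
      sec' := fun x y y' h => by
        simp only [hU₁] at h
        exact eY.injective (add_left_cancel h)
      tr := hw }
  have hndvd : ∀ m : ℕ, 1 ≤ m → m < p → ¬ p ∣ p ^ b - m := by
    intro m h1 h2 h
    have h3 : p ∣ p ^ b - (p ^ b - m) := Nat.dvd_sub hpq h
    rw [Nat.sub_sub_self (by omega)] at h3
    have := Nat.le_of_dvd (by omega) h3
    omega
  refine ⟨sel U₁ (fun u => u = 0) τ₁ ρ, sel U₂ (fun u => 1 ≤ u.val ∧ u.val ≤ β) τ₂ ρ,
    k3 β U₁ U₂ τ₁ τ₂ ρ, ?_, ?_, D.trans3, ?_⟩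
  · refine sel_trans hqn e₁ eY he₁ heY _ ?_
    rw [card_ne]
    exact unit_of hp (hndvd 1 le_rfl (by omega))
  · refine sel_trans hqn e₂ eY he₂ heY _ ?_
    have h1 : ((univ.filter (fun u : ZMod (p ^ b) => ¬ (1 ≤ u.val ∧ u.val ≤ β))).card : ℕ) =
        p ^ b - β := by
      have h2 : (univ.filter (fun u : ZMod (p ^ b) => (1 ≤ u.val ∧ u.val ≤ β))).card = β := by
        have h3 : (univ.filter (fun u : ZMod (p ^ b) => (1 ≤ u.val ∧ u.val ≤ β))) =
            (Finset.Icc 1 β).image (fun j : ℕ => (j : ZMod (p ^ b))) := by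
          ext u
          simp only [mem_filter, mem_univ, true_and, mem_image, Finset.mem_Icc]
          constructor
          · intro h
            exact ⟨u.val, h, ZMod.natCast_zmod_val u⟩
          · rintro ⟨j, hj, rfl⟩
            rw [ZMod.val_cast_of_lt (by omega)]
            exact hj
        rw [h3, card_image_of_injOn, Nat.card_Icc]
        · omega
        · intro i hi j hj hij
          simp only [coe_Icc, Set.mem_Icc] at hi hj
          have := congrArg ZMod.val hij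
          simp only at this
          rwa [ZMod.val_cast_of_lt (by omega), ZMod.val_cast_of_lt (by omega)] at this
      have h4 := card_filter_add_card_filter_not (s := (univ : Finset (ZMod (p ^ b))))
        (fun u : ZMod (p ^ b) => (1 ≤ u.val ∧ u.val ≤ β))
      rw [h2, card_univ, ZMod.card] at h4
      omega
    rw [h1]
    exact unit_of hp (hndvd β hβ1 (by omega))
  · intro v
    have hns := fun h => D.not_special (v := v) h
    unfold sel k3
    by_cases h1 : U₁ v = 0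
    · have h2 := hns h1
      simp only [h1, h2, if_true, if_false]
      refine Multiset.coe_eq_coe.2 ?_
      refine (List.Perm.cons _ (List.Perm.swap _ _ _)).trans ?_
      refine (List.Perm.swap _ _ _).trans (List.Perm.cons _ (List.Perm.swap _ _ _))
    · by_cases h2 : 1 ≤ (U₂ v).val ∧ (U₂ v).val ≤ β
      · simp only [h1, h2, if_true, if_false, and_self]
        exact Multiset.coe_eq_coe.2 (List.Perm.cons _ (List.Perm.swap _ _ _))
      · simp only [h1, h2, if_false]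

end Pool.Agent.U503.VS
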