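import Pool.Agent.U503.VS.Three

/-!
# Directed Hamiltonian decompositions of products of cycles of prime length `p ≥ 5`
-/

set_option autoImplicit false

namespace Pool.Agent.U503.VS

open Finset Function

/-- The out-neighbours `Ed v` are distributed over `t` transitive maps; `g` is a grading. -/
structure HD (p t : ℕ) {V : Type} (Ed : V → Multiset V) (g : V → ZMod p) : Prop where
  fin : Finite V
  card : Nat.card V = p ^ t
  gr : ∀ v, ∀ w ∈ Ed v, g w = g v + 1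
  ex : ∃ L : List (V → V), L.length = t ∧ (∀ κ ∈ L, Trans κ) ∧
    (∀ v, ((L.map (fun κ => κ v) : List V) : Multiset V) = Ed v) ∧
    (2 ≤ t → ∃ τ₁ τ₂ L', L = τ₁ :: τ₂ :: L' ∧ ∃ β, 1 ≤ β ∧ β ≤ 2 ∧ Trans (τ₂^[β] ∘ τ₁))

/-- The out-neighbours in a product. -/
def PEd {X Y : Type} (E₁ : X → Multiset X) (E₂ : Y → Multiset Y) (v : X × Y) : Multiset (X × Y) :=
  (E₁ v.1).map (fun x => (x, v.2)) + (E₂ v.2).map (fun y => (v.1, y))

theorem HD.congr {p t : ℕ} {V W : Type} {Ed : V → Multiset V} {g : V → ZMod p}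
    {Ed' : W → Multiset W} {g' : W → ZMod p} (H : HD p t Ed g) (e : V ≃ W)
    (h1 : ∀ v, Ed' (e v) = (Ed v).map e) (h2 : ∀ v, g' (e v) = g v) : HD p t Ed' g' := by
  have := H.fin
  obtain ⟨L, hL, hT, hE, hG⟩ := H.ex
  have hconj : ∀ f : V → V, Trans f → Trans (fun w => e (f (e.symm w))) := by
    intro f hf
    refine Trans.conj e.symm hf ?_
    intro w
    rw [e.symm_apply_apply]
  refine ⟨Finite.of_equiv V e, ?_, ?_, L.map (fun f w => e (f (e.symm w))), ?_, ?_, ?_, ?_⟩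
  · rw [← H.card]
    exact (Nat.card_congr e).symm
  · intro w w' hw'
    obtain ⟨v, rfl⟩ := e.surjective w
    obtain ⟨v', rfl⟩ := e.surjective w'
    rw [h1, Multiset.mem_map_of_injective e.injective] at hw'
    rw [h2, h2]
    exact H.gr v v' hw'
  · rw [List.length_map, hL]
  · intro κ hκ
    obtain ⟨f, hf, rfl⟩ := List.mem_map.1 hκ
    exact hconj f (hT f hf)
  · intro w
    obtain ⟨v, rfl⟩ := e.surjective w
    rw [h1, ← hE v, Multiset.map_coe, List.map_map, List.map_map]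
    congr 2
    funext f
    simp
  · intro ht
    obtain ⟨τ₁, τ₂, L', hLL, β, hb1, hb2, hw⟩ := hG ht
    refine ⟨_, _, _, by rw [hLL, List.map_cons, List.map_cons], β, hb1, hb2, ?_⟩
    have key : ∀ (m : ℕ) (w : W), (fun w => e (τ₂ (e.symm w)))^[m] w = e (τ₂^[m] (e.symm w)) := by
      intro m
      induction m with
      | zero => intro w; simp
      | succ m ih => intro w; rw [iterate_succ_apply, ih, e.symm_apply_apply, iterate_succ_apply]
    have h3 := hconj _ hw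
    have h4 : (fun w => e (τ₂ (e.symm w)))^[β] ∘ (fun w => e (τ₁ (e.symm w))) =
        fun w => e ((τ₂^[β] ∘ τ₁) (e.symm w)) := by
      funext w
      simp only [comp_apply]
      rw [key, e.symm_apply_apply]
    rw [h4]
    exact h3

/-- Lists of cycles of equal length. -/
theorem pairs {X Y : Type} [Fintype X] [Fintype Y] [Nonempty X] [Nonempty Y] {p a b : ℕ}
    (hp : p.Prime) (hp5 : 5 ≤ p) (hX : Fintype.card X = p ^ a) (hY : Fintype.card Y = p ^ b)
    (hb : 1 ≤ b) (hab : b ≤ a) : ∀ (L₁ : List (X → X)) (L₂ : List (Y → Y)),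
      L₁.length = L₂.length → (∀ κ ∈ L₁, Trans κ) → (∀ κ ∈ L₂, Trans κ) →
      ∃ L : List (X × Y → X × Y), L.length = 2 * L₁.length ∧ (∀ κ ∈ L, Trans κ) ∧
        (∀ v, ((L.map (fun κ => κ v) : List (X × Y)) : Multiset (X × Y)) =
          ((L₁.map (fun κ => (κ v.1, v.2)) : List (X × Y)) : Multiset (X × Y)) +
          ((L₂.map (fun κ => (v.1, κ v.2)) : List (X × Y)) : Multiset (X × Y))) ∧
        (L₁ ≠ [] → ∃ τ₁ τ₂ L', L = τ₁ :: τ₂ :: L' ∧ Trans (τ₂^[2] ∘ τ₁)) := by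
  intro L₁
  induction L₁ with
  | nil =>
    intro L₂ hlen _ _
    have h2 : L₂ = [] := List.length_eq_zero_iff.1 (by rw [← hlen]; rfl)
    subst h2
    exact ⟨[], rfl, by simp, by simp, fun h => absurd rfl h⟩
  | cons τ L₁ ih =>
    intro L₂ hlen h1 h2
    cases L₂ with
    | nil => simp at hlen
    | cons ρ L₂ =>
      obtain ⟨L, hL, hT, hE, -⟩ := ih L₂ (by simpa using hlen)
        (fun κ hκ => h1 κ (List.mem_cons_of_mem _ hκ)) (fun κ hκ => h2 κ (List.mem_cons_of_mem _ hκ))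
      obtain ⟨σ₁, σ₂, hs1, hs2, hw, hσ⟩ := pair hp hp5 hX hY hb hab (h1 τ (List.mem_cons_self))
        (h2 ρ (List.mem_cons_self))
      refine ⟨σ₂ :: σ₁ :: L, ?_, ?_, ?_, fun _ => ⟨σ₂, σ₁, L, rfl, hw⟩⟩
      · rw [List.length_cons, List.length_cons, hL, List.length_cons]; ring
      · intro κ hκ
        rcases List.mem_cons.1 hκ with rfl | hκ
        · exact hs2
        · rcases List.mem_cons.1 hκ with rfl | hκ
          · exact hs1
          · exact hT κ hκ
      · intro v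
        have e1 := hσ v
        have e2 := hE v
        rw [List.map_cons, List.map_cons, List.map_cons, List.map_cons]
        simp only [← Multiset.cons_coe] at e1 ⊢
        rw [e2, Multiset.cons_swap]
        have e3 : σ₁ v ::ₘ σ₂ v ::ₘ (((L₁.map (fun κ => (κ v.1, v.2)) : List (X × Y)) :
            Multiset (X × Y)) + ((L₂.map (fun κ => (v.1, κ v.2)) : List (X × Y)) :
            Multiset (X × Y))) = (σ₁ v ::ₘ σ₂ v ::ₘ (([] : List (X × Y)) : Multiset (X × Y))) +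
            (((L₁.map (fun κ => (κ v.1, v.2)) : List (X × Y)) :
            Multiset (X × Y)) + ((L₂.map (fun κ => (v.1, κ v.2)) : List (X × Y)) :
            Multiset (X × Y))) := by
          simp
        rw [e3, e1]
        generalize ((L₁.map (fun κ => (κ v.1, v.2)) : List (X × Y)) : Multiset (X × Y)) = A
        generalize ((L₂.map (fun κ => (v.1, κ v.2)) : List (X × Y)) : Multiset (X × Y)) = B
        simp only [Multiset.coe_nil, Multiset.cons_add, Multiset.add_cons, zero_add]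
        exact Multiset.cons_swap _ _ _

theorem HD.grade {p t : ℕ} {V : Type} {Ed : V → Multiset V} {g : V → ZMod p} (H : HD p t Ed g)
    {L : List (V → V)} (hE : ∀ v, ((L.map (fun κ => κ v) : List V) : Multiset V) = Ed v)
    {κ : V → V} (hκ : κ ∈ L) (v : V) : g (κ v) = g v + 1 := by
  refine H.gr v _ ?_
  rw [← hE v, Multiset.mem_coe]
  exact List.mem_map.2 ⟨κ, hκ, rfl⟩

theorem PEd_gr {p : ℕ} {X Y : Type} {E₁ : X → Multiset X} {E₂ : Y → Multiset Y} {g₁ : X → ZMod p}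
    {g₂ : Y → ZMod p} (h1 : ∀ v, ∀ w ∈ E₁ v, g₁ w = g₁ v + 1) (h2 : ∀ v, ∀ w ∈ E₂ v, g₂ w = g₂ v + 1)
    (v w : X × Y) (hw : w ∈ PEd E₁ E₂ v) : g₁ w.1 + g₂ w.2 = g₁ v.1 + g₂ v.2 + 1 := by
  unfold PEd at hw
  rcases Multiset.mem_add.1 hw with hw | hw
  · obtain ⟨x, hx, rfl⟩ := Multiset.mem_map.1 hw
    simp only
    rw [h1 _ _ hx]; ring
  · obtain ⟨y, hy, rfl⟩ := Multiset.mem_map.1 hw
    simp only
    rw [h2 _ _ hy]; ring

/-- Even dimensions. -/
theorem HD.even {p t : ℕ} (hp : p.Prime) (hp5 : 5 ≤ p) (ht : 1 ≤ t) {X Y : Type}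
    {E₁ : X → Multiset X} {E₂ : Y → Multiset Y} {g₁ : X → ZMod p} {g₂ : Y → ZMod p}
    (H₁ : HD p t E₁ g₁) (H₂ : HD p t E₂ g₂) :
    HD p (2 * t) (PEd E₁ E₂) (fun v => g₁ v.1 + g₂ v.2) := by
  have := H₁.fin
  have := H₂.fin
  have := Fintype.ofFinite X
  have := Fintype.ofFinite Y
  have hX : Fintype.card X = p ^ t := by rw [← Nat.card_eq_fintype_card, H₁.card]
  have hY : Fintype.card Y = p ^ t := by rw [← Nat.card_eq_fintype_card, H₂.card]
  have hpos : 0 < p ^ t := pow_pos (by omega) t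
  have : Nonempty X := Fintype.card_pos_iff.1 (by rw [hX]; exact hpos)
  have : Nonempty Y := Fintype.card_pos_iff.1 (by rw [hY]; exact hpos)
  obtain ⟨L₁, hL₁, hT₁, hE₁, -⟩ := H₁.ex
  obtain ⟨L₂, hL₂, hT₂, hE₂, -⟩ := H₂.ex
  obtain ⟨L, hL, hT, hE, hG⟩ := pairs hp hp5 hX hY ht le_rfl L₁ L₂ (hL₁.trans hL₂.symm) hT₁ hT₂
  refine ⟨inferInstance, ?_, PEd_gr H₁.gr H₂.gr, L, by rw [hL, hL₁], hT, ?_, ?_⟩
  · rw [Nat.card_prod, H₁.card, H₂.card, ← pow_add]
    congr 1
    ring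
  · intro v
    rw [hE v]
    unfold PEd
    rw [← hE₁ v.1, ← hE₂ v.2, Multiset.map_coe, Multiset.map_coe, List.map_map, List.map_map]
    rfl
  · intro _
    obtain ⟨τ₁, τ₂, L', h1, h2⟩ := hG (by
      intro h
      rw [h] at hL₁
      simp at hL₁
      omega)
    exact ⟨τ₁, τ₂, L', h1, 2, by norm_num, le_rfl, h2⟩

/-- Odd dimensions. -/
theorem HD.odd {p t : ℕ} (hp : p.Prime) (hp5 : 5 ≤ p) (ht : 2 ≤ t) {X Y : Type}
    {E₁ : X → Multiset X} {E₂ : Y → Multiset Y} {g₁ : X → ZMod p} {g₂ : Y → ZMod p}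
    (H₁ : HD p (t + 1) E₁ g₁) (H₂ : HD p t E₂ g₂) :
    HD p (2 * t + 1) (PEd E₁ E₂) (fun v => g₁ v.1 + g₂ v.2) := by
  have := H₁.fin
  have := H₂.fin
  have := Fintype.ofFinite X
  have := Fintype.ofFinite Y
  have hX : Fintype.card X = p ^ (t + 1) := by rw [← Nat.card_eq_fintype_card, H₁.card]
  have hY : Fintype.card Y = p ^ t := by rw [← Nat.card_eq_fintype_card, H₂.card]
  have hpos : 0 < p ^ t := pow_pos (by omega) t
  have hpos' : 0 < p ^ (t + 1) := pow_pos (by omega) (t + 1)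
  have : Nonempty X := Fintype.card_pos_iff.1 (by rw [hX]; exact hpos')
  have : Nonempty Y := Fintype.card_pos_iff.1 (by rw [hY]; exact hpos)
  obtain ⟨L₁, hL₁, hT₁, hE₁, hG₁⟩ := H₁.ex
  obtain ⟨L₂, hL₂, hT₂, hE₂, -⟩ := H₂.ex
  obtain ⟨τ₁, τ₂, L₁', rfl, β, hb1, hb2, hw⟩ := hG₁ (by omega)
  cases L₂ with
  | nil => simp at hL₂; omega
  | cons ρ L₂' =>
  rw [List.length_cons, List.length_cons] at hL₁
  rw [List.length_cons] at hL₂
  have hlen : L₁'.length = L₂'.length := by omega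
  obtain ⟨L, hL, hT, hE, hG⟩ := pairs hp hp5 hX hY (by omega) (by omega) L₁' L₂' hlen
    (fun κ hκ => hT₁ κ (List.mem_cons_of_mem _ (List.mem_cons_of_mem _ hκ)))
    (fun κ hκ => hT₂ κ (List.mem_cons_of_mem _ hκ))
  have m1 : τ₁ ∈ τ₁ :: τ₂ :: L₁' := List.mem_cons_self
  have m2 : τ₂ ∈ τ₁ :: τ₂ :: L₁' := List.mem_cons_of_mem _ List.mem_cons_self
  have m3 : ρ ∈ ρ :: L₂' := List.mem_cons_self
  obtain ⟨κ₁, κ₂, κ₃, k1, k2, k3, hk⟩ := triple hp hp5 hX hY (by omega) (by omega)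
    (hT₁ τ₁ m1) (hT₁ τ₂ m2) (hT₂ ρ m3) hb1 hb2 hw g₁ g₂ (H₁.grade hE₁ m1) (H₁.grade hE₁ m2)
    (H₂.grade hE₂ m3)
  refine ⟨inferInstance, ?_, PEd_gr H₁.gr H₂.gr, L ++ [κ₁, κ₂, κ₃], ?_, ?_, ?_, ?_⟩
  · rw [Nat.card_prod, H₁.card, H₂.card, ← pow_add]
    congr 1
    ring
  · rw [List.length_append, hL]
    simp only [List.length_cons, List.length_nil]
    omega
  · intro κ hκ
    rcases List.mem_append.1 hκ with hκ | hκ
    · exact hT κ hκ
    · simp only [List.mem_cons, List.not_mem_nil, or_false] at hκ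
      rcases hκ with rfl | rfl | rfl
      · exact k1
      · exact k2
      · exact k3
  · intro v
    have e1 := hE v
    have e2 := hk v
    rw [List.map_append, ← Multiset.coe_add, e1]
    have e3 : ((List.map (fun κ => κ v) [κ₁, κ₂, κ₃] : List (X × Y)) : Multiset (X × Y)) =
      (([κ₁ v, κ₂ v, κ₃ v] : List (X × Y)) : Multiset (X × Y)) := rfl
    rw [e3, e2]
    unfold PEd
    rw [← hE₁ v.1, ← hE₂ v.2, Multiset.map_coe, Multiset.map_coe, List.map_map, List.map_map]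
    simp only [List.map_cons, comp_apply]
    simp only [← Multiset.cons_coe, Multiset.coe_nil]
    have e4 : (L₁'.map ((fun x => (x, v.2)) ∘ fun κ => κ v.1)) =
      (L₁'.map (fun κ => (κ v.1, v.2))) := rfl
    have e5 : (L₂'.map ((fun y => (v.1, y)) ∘ fun κ => κ v.2)) =
      (L₂'.map (fun κ => (v.1, κ v.2))) := rfl
    rw [e4, e5]
    generalize ((L₁'.map (fun κ => (κ v.1, v.2)) : List (X × Y)) : Multiset (X × Y)) = A
    generalize ((L₂'.map (fun κ => (v.1, κ v.2)) : List (X × Y)) : Multiset (X × Y)) = B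
    simp only [Multiset.add_cons, Multiset.cons_add, add_zero]
    rw [Multiset.cons_swap (τ₂ v.1, v.2), Multiset.cons_swap (τ₁ v.1, v.2),
      Multiset.cons_swap (τ₁ v.1, v.2)]
  · intro _
    obtain ⟨τ₁', τ₂', L', h1, h2⟩ := hG (by
      intro h
      rw [h] at hL₁
      simp at hL₁
      omega)
    exact ⟨τ₁', τ₂', L' ++ [κ₁, κ₂, κ₃], by rw [h1]; rfl, 2, by norm_num, le_rfl, h2⟩

end Pool.Agent.U503.VS
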