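import Mathlib

/-!
# Transitive maps of finite sets and skew products
-/

set_option autoImplicit false

namespace Pool.Agent.U503.VS

open Finset Function

/-- Every point can be reached from every point by iterating `f`. -/
def Trans {V : Type} (f : V → V) : Prop := ∀ v w, ∃ m : ℕ, f^[m] v = w

theorem Trans.surj {V : Type} {f : V → V} (h : Trans f) : Surjective f := by
  intro w
  obtain ⟨m, hm⟩ := h (f w) w
  exact ⟨f^[m] w, by rw [← iterate_succ_apply' f m w, iterate_succ_apply, hm]⟩

theorem Trans.inj {V : Type} [Finite V] {f : V → V} (h : Trans f) : Injective f :=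
  Finite.injective_iff_surjective.2 h.surj

theorem Trans.conj {V W : Type} {f : V → V} {g : W → W} (e : V ≃ W) (h : Trans g)
    (hfg : ∀ v, e (f v) = g (e v)) : Trans f := by
  have key : ∀ (m : ℕ) (v : V), e (f^[m] v) = g^[m] (e v) := by
    intro m
    induction m with
    | zero => intro v; rfl
    | succ m ih => intro v; rw [iterate_succ_apply, ih, hfg, iterate_succ_apply]
  intro v w
  obtain ⟨m, hm⟩ := h (e v) (e w)
  exact ⟨m, e.injective (by rw [key, hm])⟩

/-- The orbit of a point, in order. -/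
theorem Trans.orbit {V : Type} [Fintype V] {f : V → V} (h : Trans f) (v : V) :
    f^[Fintype.card V] v = v ∧ ∀ w, ∃! i : ℕ, i < Fintype.card V ∧ f^[i] v = w := by
  classical
  obtain ⟨m, hm⟩ := h (f v) v
  have hper : v ∈ periodicPts f := ⟨m + 1, Nat.succ_pos m, by
    rw [IsPeriodicPt, IsFixedPt, iterate_succ_apply, hm]⟩
  have hpos : 0 < minimalPeriod f v := minimalPeriod_pos_of_mem_periodicPts hper
  have hinj : Set.InjOn (fun i => f^[i] v) (Set.Iio (minimalPeriod f v)) :=
    iterate_injOn_Iio_minimalPeriod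
  have hsurj : ∀ w, ∃ i < minimalPeriod f v, f^[i] v = w := by
    intro w
    obtain ⟨k, hk⟩ := h v w
    refine ⟨k % minimalPeriod f v, Nat.mod_lt _ hpos, ?_⟩
    rw [iterate_mod_minimalPeriod_eq, hk]
  have hcard : Fintype.card V = minimalPeriod f v := by
    have h1 : (range (minimalPeriod f v)).image (fun i => f^[i] v) = univ := by
      ext w
      simp only [mem_image, mem_range, mem_univ, iff_true]
      exact hsurj w
    rw [← card_univ, ← h1, card_image_of_injOn, card_range]
    intro i hi j hj hij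
    exact hinj (by simpa using hi) (by simpa using hj) hij
  rw [hcard]
  refine ⟨iterate_minimalPeriod, fun w => ?_⟩
  obtain ⟨i, hi, hiw⟩ := hsurj w
  refine ⟨i, ⟨hi, hiw⟩, ?_⟩
  rintro j ⟨hj, hjw⟩
  exact hinj hj hi (by simp only; rw [hjw, hiw])

/-- The sum over an orbit. -/
theorem Trans.sum_orbit {V M : Type} [Fintype V] [AddCommMonoid M] {f : V → V} (h : Trans f)
    (v : V) (φ : V → M) : ∑ i ∈ range (Fintype.card V), φ (f^[i] v) = ∑ w, φ w := by
  classical
  refine sum_bij (fun i _ => f^[i] v) (fun _ _ => mem_univ _) ?_ ?_ (fun _ _ => rfl)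
  · intro i hi j hj hij
    obtain ⟨k, _, hk⟩ := (h.orbit v).2 (f^[i] v)
    rw [hk i ⟨mem_range.1 hi, rfl⟩, hk j ⟨mem_range.1 hj, hij.symm⟩]
  · intro w _
    obtain ⟨i, ⟨hi, hiw⟩, _⟩ := (h.orbit v).2 w
    exact ⟨i, mem_range.2 hi, hiw⟩

/-- **Skew products.** A skew product of a transitive map with translations of `ℤ/n` is
transitive if the sum of the translations is a unit. -/
theorem skew {B : Type} [Fintype B] {n : ℕ} [NeZero n] {φ : B → B} (hφ : Trans φ)
    (f : B → ZMod n) (hf : IsUnit (∑ b, f b)) :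
    Trans (fun v : B × ZMod n => (φ v.1, v.2 + f v.1)) := by
  set T : B × ZMod n → B × ZMod n := fun v => (φ v.1, v.2 + f v.1) with hT
  have it : ∀ (m : ℕ) (b : B) (x : ZMod n),
      T^[m] (b, x) = (φ^[m] b, x + ∑ i ∈ range m, f (φ^[i] b)) := by
    intro m
    induction m with
    | zero => intro b x; simp
    | succ m ih =>
      intro b x
      rw [iterate_succ_apply', ih, sum_range_succ, hT]
      simp only [iterate_succ_apply']
      rw [add_assoc]
  set N := Fintype.card B with hN
  set F := ∑ b, f b with hF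
  have hret : ∀ (m : ℕ) (b : B) (x : ZMod n), T^[N * m] (b, x) = (b, x + m * F) := by
    intro m
    induction m with
    | zero => intro b x; simp
    | succ m ih =>
      intro b x
      rw [Nat.mul_succ, add_comm, iterate_add_apply, ih, it, (hφ.orbit b).1, hφ.sum_orbit b f,
        ← hF]
      push_cast
      ring_nf
  rintro ⟨b, x⟩ ⟨b', x'⟩
  obtain ⟨j, hj⟩ := hφ b b'
  obtain ⟨u, hu⟩ := hf
  set x1 := x + ∑ i ∈ range j, f (φ^[i] b) with hx1
  set m : ℕ := ((x' - x1) * (↑u⁻¹ : ZMod n)).val with hm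
  refine ⟨N * m + j, ?_⟩
  rw [iterate_add_apply, it j, hj, hret, ← hx1, hm, ZMod.natCast_zmod_val, ← hu, mul_assoc,
    Units.inv_mul, mul_one]
  simp

end Pool.Agent.U503.VS
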