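import Pool.Agent.U503.VS.Skew

/-!
# Products of two cycles of prime power length: directed Hamiltonian cycles
-/

set_option autoImplicit false

namespace Pool.Agent.U503.VS

open Finset Function

theorem trans_add {q : ℕ} [NeZero q] {l : ZMod q} (hl : IsUnit l) : Trans (fun u : ZMod q => u + l) := by
  have key : ∀ (m : ℕ) (u : ZMod q), (fun u : ZMod q => u + l)^[m] u = u + m * l := by
    intro m
    induction m with
    | zero => intro u; simp
    | succ m ih => intro u; rw [iterate_succ_apply', ih]; push_cast; ring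
  intro v w
  obtain ⟨t, ht⟩ := hl
  refine ⟨((w - v) * (↑t⁻¹ : ZMod q)).val, ?_⟩
  rw [key, ZMod.natCast_zmod_val, ← ht, mul_assoc, Units.inv_mul, mul_one]
  ring

/-- Positions along a transitive map, compatible with a grading. -/
theorem exists_pos {X : Type} [Fintype X] [Nonempty X] {p n : ℕ} [NeZero p] [NeZero n]
    (hn : Fintype.card X = n) (hpn : p ∣ n) {τ : X → X} (hτ : Trans τ) (g : X → ZMod p)
    (hg : ∀ x, g (τ x) = g x + 1) :
    ∃ e : X ≃ ZMod n, (∀ x, e (τ x) = e x + 1) ∧ ∀ x, ZMod.castHom hpn (ZMod p) (e x) = g x := by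
  have hgi : ∀ (i : ℕ) (x : X), g (τ^[i] x) = g x + i := by
    intro i
    induction i with
    | zero => intro x; simp
    | succ i ih => intro x; rw [iterate_succ_apply', hg, ih]; push_cast; ring
  obtain ⟨x1⟩ := ‹Nonempty X›
  set x0 := τ^[(-g x1).val] x1 with hx0
  have hg0 : g x0 = 0 := by rw [hx0, hgi, ZMod.natCast_zmod_val]; ring
  obtain ⟨hret, huniq⟩ := hτ.orbit x0
  rw [hn] at hret huniq
  set F : ZMod n → X := fun k => τ^[k.val] x0 with hF
  have hbij : Bijective F := by
    constructor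
    · intro k k' h
      obtain ⟨i, _, hi⟩ := huniq (F k)
      have h1 := hi k.val ⟨ZMod.val_lt k, rfl⟩
      have h2 := hi k'.val ⟨ZMod.val_lt k', h.symm⟩
      exact ZMod.val_injective n (h1.trans h2.symm)
    · intro x
      obtain ⟨i, ⟨hi, hix⟩, _⟩ := huniq x
      refine ⟨(i : ZMod n), ?_⟩
      rw [hF]
      simp only
      rw [ZMod.val_cast_of_lt hi, hix]
  have hstep : ∀ k, F (k + 1) = τ (F k) := by
    intro k
    rw [hF]
    simp only
    rw [← iterate_succ_apply' τ k.val x0]
    have h1 : ∀ m : ℕ, τ^[m % n] x0 = τ^[m] x0 := by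
      intro m
      conv_rhs => rw [← Nat.div_add_mod m n, add_comm, iterate_add_apply]
      congr 1
      have : ∀ t : ℕ, τ^[n * t] x0 = x0 := by
        intro t
        induction t with
        | zero => simp
        | succ t ih => rw [Nat.mul_succ, add_comm, iterate_add_apply, ih, hret]
      exact (this _).symm
    rw [ZMod.val_add, h1, iterate_add_apply]
    by_cases hn1 : n = 1
    · subst hn1
      have h2 : τ^[1] x0 = x0 := hret
      have h3 : (1 : ZMod 1).val = 0 := rfl
      have h4 : k.val = 0 := by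
        have := ZMod.val_lt k
        omega
      rw [h3, h4, iterate_one] at *
      simpa using h2.symm
    · have h2 : (1 : ZMod n).val = 1 := by
        rw [ZMod.val_one_eq_one_mod]
        have := NeZero.pos n
        exact Nat.mod_eq_of_lt (by omega)
      rw [h2, iterate_one, ← iterate_succ_apply, iterate_succ_apply']
  refine ⟨(Equiv.ofBijective F hbij).symm, fun x => ?_, fun x => ?_⟩
  · rw [Equiv.symm_apply_eq]
    rw [Equiv.ofBijective_apply, hstep]
    congr 1
    exact ((Equiv.ofBijective F hbij).apply_symm_apply x).symm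
  · set k := (Equiv.ofBijective F hbij).symm x with hk
    have hx : x = F k := ((Equiv.ofBijective F hbij).apply_symm_apply x).symm
    have h1 : g (F k) = g x0 + k.val := hgi _ _
    rw [hx, h1, hg0, zero_add]
    conv_lhs => rw [← ZMod.natCast_zmod_val k]
    rw [map_natCast]

/-- Skew maps of the product of two cycles. -/
theorem te_gen {X Y : Type} {n q : ℕ} [NeZero n] [NeZero q] (hqn : q ∣ n) (eX : X ≃ ZMod n)
    (eY : Y ≃ ZMod q) (σ : X × Y → X × Y) (l : ZMod q) (hl : IsUnit l) (f : ZMod q → ZMod n)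
    (h1 : ∀ v, ZMod.castHom hqn (ZMod q) (eX (σ v).1) + eY (σ v).2 =
      ZMod.castHom hqn (ZMod q) (eX v.1) + eY v.2 + l)
    (h2 : ∀ v, eX (σ v).1 = eX v.1 + f (ZMod.castHom hqn (ZMod q) (eX v.1) + eY v.2))
    (hf : IsUnit (∑ u, f u)) : Trans σ := by
  let E : X × Y ≃ ZMod q × ZMod n :=
    { toFun := fun v => (ZMod.castHom hqn (ZMod q) (eX v.1) + eY v.2, eX v.1)
      invFun := fun w => (eX.symm w.2, eY.symm (w.1 - ZMod.castHom hqn (ZMod q) w.2))
      left_inv := by rintro ⟨x, y⟩; simp
      right_inv := by rintro ⟨u, k⟩; simp }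
  refine Trans.conj E (skew (trans_add hl) f hf) ?_
  intro v
  change (ZMod.castHom hqn (ZMod q) (eX (σ v).1) + eY (σ v).2, eX (σ v).1) =
    (ZMod.castHom hqn (ZMod q) (eX v.1) + eY v.2 + l,
      eX v.1 + f (ZMod.castHom hqn (ZMod q) (eX v.1) + eY v.2))
  rw [h1, h2]

/-- One of the two maps according to the diagonal. -/
def sel {X Y : Type} {q : ℕ} (U : X × Y → ZMod q) (J : ZMod q → Prop) [DecidablePred J]
    (τ : X → X) (ρ : Y → Y) : X × Y → X × Y :=
  fun v => if J (U v) then (v.1, ρ v.2) else (τ v.1, v.2)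

theorem sel_trans {X Y : Type} {n q : ℕ} [NeZero n] [NeZero q] (hqn : q ∣ n) (eX : X ≃ ZMod n)
    (eY : Y ≃ ZMod q) {τ : X → X} {ρ : Y → Y} (hX : ∀ x, eX (τ x) = eX x + 1)
    (hY : ∀ y, eY (ρ y) = eY y + 1) (J : ZMod q → Prop) [DecidablePred J]
    (hF : IsUnit (((univ.filter (fun u => ¬ J u)).card : ℕ) : ZMod n)) :
    Trans (sel (fun v : X × Y => ZMod.castHom hqn (ZMod q) (eX v.1) + eY v.2) J τ ρ) := by
  refine te_gen hqn eX eY _ 1 isUnit_one (fun u => if J u then 0 else 1) ?_ ?_ ?_
  · intro v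
    unfold sel
    split_ifs
    · simp only [hY]; ring
    · simp only [hX, map_add, map_one]; ring
  · intro v
    unfold sel
    simp only
    split_ifs
    · simp
    · simp only [hX]
  · rw [sum_ite, sum_const_zero, zero_add, sum_const, nsmul_eq_mul, mul_one]
    exact hF

end Pool.Agent.U503.VS
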