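import Pool.Agent.U503.VS.Pair

/-!
# The product of three cycles of prime length
-/

set_option autoImplicit false

namespace Pool.Agent.U503.VS

open Finset Function

set_option linter.unusedSectionVars false

section three

variable {p : ℕ} [NeZero p]

/-- Kronecker's symbol. -/
def dl (u : ZMod p) : ZMod p := if u = 0 then 1 else 0

theorem sum_dl (c : ZMod p) : ∑ u : ZMod p, dl (u + c) = 1 := by
  unfold dl
  have : ∀ u : ZMod p, (u + c = 0) ↔ (u = -c) := fun u => by rw [eq_neg_iff_add_eq_zero]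
  simp only [this]
  rw [sum_ite_eq' univ (-c) (fun _ => (1 : ZMod p)), if_pos (mem_univ _)]

theorem sum_dl0 : ∑ u : ZMod p, dl u = 1 := by
  have := sum_dl (p := p) 0
  simpa using this

theorem sum_one' : ∑ _u : ZMod p, (1 : ZMod p) = 0 := by
  rw [sum_const, card_univ, ZMod.card, nsmul_eq_mul, mul_one, ZMod.natCast_self]

/-- Maps given by two gradings. -/
theorem lay3 (T : (ZMod p × ZMod p) × ZMod p → (ZMod p × ZMod p) × ZMod p) (l : ZMod p)
    (hl : IsUnit l) (h : ZMod p → ZMod p) (f : ZMod p → ZMod p → ZMod p)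
    (h1 : ∀ v, (T v).1.1 + (T v).1.2 + (T v).2 = v.1.1 + v.1.2 + v.2 + l)
    (h2 : ∀ v, (T v).1.1 + (T v).1.2 = v.1.1 + v.1.2 + h (v.1.1 + v.1.2 + v.2))
    (h3 : ∀ v, (T v).1.1 = v.1.1 + f (v.1.1 + v.1.2 + v.2) (v.1.1 + v.1.2))
    (hh : IsUnit (∑ s, h s)) (hf : IsUnit (∑ s, ∑ r, f s r)) : Trans T := by
  have hB : Trans (fun b : ZMod p × ZMod p => (b.1 + l, b.2 + h b.1)) := skew (trans_add hl) h hh
  have hf' : IsUnit (∑ b : ZMod p × ZMod p, f b.1 b.2) := by
    rw [Fintype.sum_prod_type]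
    exact hf
  let E : (ZMod p × ZMod p) × ZMod p ≃ (ZMod p × ZMod p) × ZMod p :=
    { toFun := fun v => ((v.1.1 + v.1.2 + v.2, v.1.1 + v.1.2), v.1.1)
      invFun := fun w => ((w.2, w.1.2 - w.2), w.1.1 - w.1.2)
      left_inv := by rintro ⟨⟨x, y⟩, z⟩; simp
      right_inv := by rintro ⟨⟨x, y⟩, z⟩; simp }
  refine Trans.conj E (skew hB (fun b => f b.1 b.2) hf') ?_
  intro v
  change (((T v).1.1 + (T v).1.2 + (T v).2, (T v).1.1 + (T v).1.2), (T v).1.1) = _
  rw [h1, h2, h3]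
  rfl

/-- The first cycle of the square. -/
def t1 (w : ZMod p × ZMod p) : ZMod p × ZMod p := if w.1 + w.2 = 0 then (w.1 + 1, w.2) else (w.1, w.2 + 1)

/-- The second cycle of the square. -/
def t2 (w : ZMod p × ZMod p) : ZMod p × ZMod p := if w.1 + w.2 = 0 then (w.1, w.2 + 1) else (w.1 + 1, w.2)

theorem t1_sum (w : ZMod p × ZMod p) : (t1 w).1 + (t1 w).2 = w.1 + w.2 + 1 := by
  unfold t1; split_ifs <;> ring

theorem t2_sum (w : ZMod p × ZMod p) : (t2 w).1 + (t2 w).2 = w.1 + w.2 + 1 := by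
  unfold t2; split_ifs <;> ring

theorem t1_fst (w : ZMod p × ZMod p) : (t1 w).1 = w.1 + dl (w.1 + w.2) := by
  unfold t1 dl; split_ifs <;> simp

theorem t2_fst (w : ZMod p × ZMod p) : (t2 w).1 = w.1 + (1 - dl (w.1 + w.2)) := by
  unfold t2 dl; split_ifs <;> simp

/-- the grading -/
def SS (v : (ZMod p × ZMod p) × ZMod p) : ZMod p := v.1.1 + v.1.2 + v.2

def c1 (v : (ZMod p × ZMod p) × ZMod p) : (ZMod p × ZMod p) × ZMod p :=
  if SS v = 0 ∨ SS v + (-1) = 0 then (v.1, v.2 + 1) else (t1 v.1, v.2)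

def c2 (v : (ZMod p × ZMod p) × ZMod p) : (ZMod p × ZMod p) × ZMod p :=
  if SS v + (-2) = 0 then (v.1, v.2 + 1) else (t2 v.1, v.2)

def c3 (v : (ZMod p × ZMod p) × ZMod p) : (ZMod p × ZMod p) × ZMod p :=
  if SS v = 0 ∨ SS v + (-1) = 0 then (t1 v.1, v.2) else
    if SS v + (-2) = 0 then (t2 v.1, v.2) else (v.1, v.2 + 1)

/-- the steps of `c1` in the square -/
def h1' (s : ZMod p) : ZMod p := 1 - dl s - dl (s + (-1))

/-- the steps of `c2` in the square -/
def h2' (s : ZMod p) : ZMod p := 1 - dl (s + (-2))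

theorem c1_S (v : (ZMod p × ZMod p) × ZMod p) : SS (c1 v) = SS v + 1 := by
  unfold c1
  split_ifs
  · unfold SS; ring
  · unfold SS; rw [t1_sum]; ring

theorem c2_S (v : (ZMod p × ZMod p) × ZMod p) : SS (c2 v) = SS v + 1 := by
  unfold c2
  split_ifs
  · unfold SS; ring
  · unfold SS; rw [t2_sum]; ring

theorem c3_S (v : (ZMod p × ZMod p) × ZMod p) : SS (c3 v) = SS v + 1 := by
  unfold c3
  split_ifs
  · unfold SS; rw [t1_sum]; ring
  · unfold SS; rw [t2_sum]; ring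
  · unfold SS; ring

variable (hp : p.Prime) (hp5 : 5 ≤ p)

theorem one_ne' (hp5 : 5 ≤ p) : (1 : ZMod p) ≠ 0 := by
  have : Fact (1 < p) := ⟨by omega⟩
  exact one_ne_zero

theorem two_ne' (hp5 : 5 ≤ p) : (2 : ZMod p) ≠ 0 := by
  intro h
  have h1 : ((2 : ℕ) : ZMod p) = 0 := by exact_mod_cast h
  rw [ZMod.natCast_eq_zero_iff] at h1
  have := Nat.le_of_dvd (by norm_num) h1
  omega

theorem c1_s2 (hp5 : 5 ≤ p) (v : (ZMod p × ZMod p) × ZMod p) :
    (c1 v).1.1 + (c1 v).1.2 = v.1.1 + v.1.2 + h1' (SS v) := by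
  have h1 := one_ne' hp5
  unfold c1 h1' dl
  by_cases ha : SS v = 0
  · have hb : ¬ (SS v + (-1) = 0) := by rw [ha]; simpa using h1
    simp only [ha, true_or, if_true]
    simp [h1]
  · by_cases hb : SS v + (-1) = 0
    · simp only [ha, hb, or_true, if_true, if_false]
      ring
    · simp only [ha, hb, or_self, if_false]
      rw [t1_sum]; ring

theorem c1_x (hp5 : 5 ≤ p) (v : (ZMod p × ZMod p) × ZMod p) :
    (c1 v).1.1 = v.1.1 + h1' (SS v) * dl (v.1.1 + v.1.2) := by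
  have h1 := one_ne' hp5
  unfold c1 h1'
  by_cases ha : SS v = 0
  · have hb : ¬ (SS v + (-1) = 0) := by rw [ha]; simpa using h1
    have e1 : dl (SS v) = 1 := by unfold dl; rw [if_pos ha]
    have e2 : dl (SS v + (-1)) = 0 := by unfold dl; rw [if_neg hb]
    rw [if_pos (Or.inl ha), e1, e2]; ring
  · by_cases hb : SS v + (-1) = 0
    · have e1 : dl (SS v) = 0 := by unfold dl; rw [if_neg ha]
      have e2 : dl (SS v + (-1)) = 1 := by unfold dl; rw [if_pos hb]
      rw [if_pos (Or.inr hb), e1, e2]; ring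
    · have e1 : dl (SS v) = 0 := by unfold dl; rw [if_neg ha]
      have e2 : dl (SS v + (-1)) = 0 := by unfold dl; rw [if_neg hb]
      rw [if_neg (by tauto), e1, e2]
      simp only
      rw [t1_fst]; ring

theorem c2_s2 (v : (ZMod p × ZMod p) × ZMod p) :
    (c2 v).1.1 + (c2 v).1.2 = v.1.1 + v.1.2 + h2' (SS v) := by
  unfold c2 h2'
  by_cases ha : SS v + (-2) = 0
  · have e1 : dl (SS v + (-2)) = 1 := by unfold dl; rw [if_pos ha]
    rw [if_pos ha, e1]; ring
  · have e1 : dl (SS v + (-2)) = 0 := by unfold dl; rw [if_neg ha]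
    rw [if_neg ha, e1]
    simp only
    rw [t2_sum]; ring

theorem c2_x (v : (ZMod p × ZMod p) × ZMod p) :
    (c2 v).1.1 = v.1.1 + h2' (SS v) * (1 - dl (v.1.1 + v.1.2)) := by
  unfold c2 h2'
  by_cases ha : SS v + (-2) = 0
  · have e1 : dl (SS v + (-2)) = 1 := by unfold dl; rw [if_pos ha]
    rw [if_pos ha, e1]; ring
  · have e1 : dl (SS v + (-2)) = 0 := by unfold dl; rw [if_neg ha]
    rw [if_neg ha, e1]
    simp only
    rw [t2_fst]; ring

/-- the three conditions are exclusive -/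
theorem excl (hp5 : 5 ≤ p) (s : ZMod p) :
    (dl s = 1 ∧ dl (s + (-1)) = 0 ∧ dl (s + (-2)) = 0 ∧ s = 0) ∨
    (dl s = 0 ∧ dl (s + (-1)) = 1 ∧ dl (s + (-2)) = 0 ∧ s ≠ 0 ∧ s + (-1) = 0) ∨
    (dl s = 0 ∧ dl (s + (-1)) = 0 ∧ dl (s + (-2)) = 1 ∧ s ≠ 0 ∧ s + (-1) ≠ 0 ∧ s + (-2) = 0) ∨
    (dl s = 0 ∧ dl (s + (-1)) = 0 ∧ dl (s + (-2)) = 0 ∧ s ≠ 0 ∧ s + (-1) ≠ 0 ∧ s + (-2) ≠ 0) := by
  have h1 := one_ne' hp5
  have h2 := two_ne' hp5
  unfold dl
  by_cases ha : s = 0
  · left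
    subst ha
    refine ⟨if_pos rfl, if_neg ?_, if_neg ?_, rfl⟩
    · simpa using h1
    · simpa using h2
  · by_cases hb : s + (-1) = 0
    · right; left
      refine ⟨if_neg ha, if_pos hb, if_neg ?_, ha, hb⟩
      intro hc
      apply h1
      have : (1 : ZMod p) = (s + (-1)) - (s + (-2)) := by ring
      rw [this, hb, hc, sub_zero]
    · by_cases hc : s + (-2) = 0
      · right; right; left
        exact ⟨if_neg ha, if_neg hb, if_pos hc, ha, hb, hc⟩
      · right; right; right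
        exact ⟨if_neg ha, if_neg hb, if_neg hc, ha, hb, hc⟩

theorem c3_s2 (hp5 : 5 ≤ p) (v : (ZMod p × ZMod p) × ZMod p) :
    (c3 v).1.1 + (c3 v).1.2 = v.1.1 + v.1.2 +
      (dl (SS v) + dl (SS v + (-1)) + dl (SS v + (-2))) := by
  unfold c3
  rcases excl hp5 (SS v) with ⟨e1, e2, e3, ha⟩ | ⟨e1, e2, e3, ha, hb⟩ | ⟨e1, e2, e3, ha, hb, hc⟩ |
    ⟨e1, e2, e3, ha, hb, hc⟩
  · rw [if_pos (Or.inl ha), e1, e2, e3]; simp only; rw [t1_sum]; ring
  · rw [if_pos (Or.inr hb), e1, e2, e3]; simp only; rw [t1_sum]; ring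
  · rw [if_neg (by tauto), if_pos hc, e1, e2, e3]; simp only; rw [t2_sum]; ring
  · rw [if_neg (by tauto), if_neg hc, e1, e2, e3]; ring

theorem c3_x (hp5 : 5 ≤ p) (v : (ZMod p × ZMod p) × ZMod p) :
    (c3 v).1.1 = v.1.1 + ((dl (SS v) + dl (SS v + (-1))) * dl (v.1.1 + v.1.2) +
      dl (SS v + (-2)) * (1 - dl (v.1.1 + v.1.2))) := by
  unfold c3
  rcases excl hp5 (SS v) with ⟨e1, e2, e3, ha⟩ | ⟨e1, e2, e3, ha, hb⟩ | ⟨e1, e2, e3, ha, hb, hc⟩ |
    ⟨e1, e2, e3, ha, hb, hc⟩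
  · rw [if_pos (Or.inl ha), e1, e2, e3]; simp only; rw [t1_fst]; ring
  · rw [if_pos (Or.inr hb), e1, e2, e3]; simp only; rw [t1_fst]; ring
  · rw [if_neg (by tauto), if_pos hc, e1, e2, e3]; simp only; rw [t2_fst]; ring
  · rw [if_neg (by tauto), if_neg hc, e1, e2, e3]; ring

theorem small_unit (hp : p.Prime) {m : ℕ} (h1 : 1 ≤ m) (h2 : m < p) : IsUnit ((m : ℕ) : ZMod p) := by
  have := unit_of (p := p) (m := m) (a := 1) hp (fun h => by
    have := Nat.le_of_dvd (by omega) h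
    omega)
  rwa [pow_one] at this

theorem sum_h1' : ∑ s : ZMod p, h1' s = -2 := by
  unfold h1'
  rw [sum_sub_distrib, sum_sub_distrib, sum_one', sum_dl0, sum_dl]; ring

theorem sum_h2' : ∑ s : ZMod p, h2' s = -1 := by
  unfold h2'
  rw [sum_sub_distrib, sum_one', sum_dl]; ring

theorem c1_trans (hp : p.Prime) (hp5 : 5 ≤ p) : Trans (c1 (p := p)) := by
  refine lay3 _ 1 isUnit_one h1' (fun s r => h1' s * dl r) c1_S (c1_s2 hp5) (c1_x hp5) ?_ ?_
  · rw [sum_h1']
    have := small_unit (m := 2) hp (by norm_num) (by omega)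
    exact (by exact_mod_cast this : IsUnit (2 : ZMod p)).neg
  · simp only [← mul_sum, sum_dl0, mul_one]
    rw [sum_h1']
    have := small_unit (m := 2) hp (by norm_num) (by omega)
    exact (by exact_mod_cast this : IsUnit (2 : ZMod p)).neg

theorem c2_trans : Trans (c2 (p := p)) := by
  refine lay3 _ 1 isUnit_one h2' (fun s r => h2' s * (1 - dl r)) c2_S c2_s2 c2_x ?_ ?_
  · rw [sum_h2']
    exact isUnit_one.neg
  · simp only [← mul_sum, sum_sub_distrib, sum_dl0, sum_one']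
    rw [← sum_mul, sum_h2']
    have : (-1 : ZMod p) * (0 - 1) = 1 := by ring
    rw [this]
    exact isUnit_one

theorem c3_trans (hp : p.Prime) (hp5 : 5 ≤ p) : Trans (c3 (p := p)) := by
  refine lay3 _ 1 isUnit_one (fun s => dl s + dl (s + (-1)) + dl (s + (-2)))
    (fun s r => (dl s + dl (s + (-1))) * dl r + dl (s + (-2)) * (1 - dl r)) c3_S (c3_s2 hp5)
    (c3_x hp5) ?_ ?_
  · rw [sum_add_distrib, sum_add_distrib, sum_dl0, sum_dl, sum_dl]
    have := small_unit (m := 3) hp (by norm_num) (by omega)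
    have e : (1 : ZMod p) + 1 + 1 = ((3 : ℕ) : ZMod p) := by norm_num
    rw [e]
    exact this
  · simp only [sum_add_distrib, ← mul_sum, sum_sub_distrib, sum_dl0, sum_one', mul_one]
    rw [← sum_mul, sum_dl, sum_dl]
    have : (1 : ZMod p) + 1 + 1 * (0 - 1) = 1 := by ring
    rw [this]
    exact isUnit_one

/-- The good pair. -/
theorem c12_trans (hp : p.Prime) (hp5 : 5 ≤ p) : Trans (c1 (p := p)^[1] ∘ c2) := by
  refine lay3 _ 2 ?_ (fun s => h2' s + h1' (s + 1))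
    (fun s r => h2' s * (1 - dl r) + h1' (s + 1) * dl (r + h2' s)) ?_ ?_ ?_ ?_ ?_
  · have := small_unit (m := 2) hp (by norm_num) (by omega)
    exact_mod_cast this
  · intro v
    rw [iterate_one, comp_apply]
    have e1 := c1_S (c2 v)
    have e2 := c2_S v
    unfold SS at e1 e2
    rw [e1, e2]; ring
  · intro v
    rw [iterate_one, comp_apply]
    have e1 := c1_s2 hp5 (c2 v)
    rw [e1, c2_s2, c2_S]
    unfold SS
    ring
  · intro v
    rw [iterate_one, comp_apply]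
    have e1 := c1_x hp5 (c2 v)
    rw [e1, c2_s2, c2_S, c2_x]
    unfold SS
    ring
  · rw [sum_add_distrib, sum_h2']
    have e : ∑ s : ZMod p, h1' (s + 1) = -2 := by
      rw [← sum_h1' (p := p)]
      exact Fintype.sum_equiv (Equiv.addRight (1 : ZMod p)) _ _ (fun _ => rfl)
    rw [e]
    have := small_unit (m := 3) hp (by norm_num) (by omega)
    have e3 : (-1 : ZMod p) + -2 = -((3 : ℕ) : ZMod p) := by norm_num
    rw [e3]
    exact this.neg
  · have e : ∑ s : ZMod p, h1' (s + 1) = -2 := by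
      rw [← sum_h1' (p := p)]
      exact Fintype.sum_equiv (Equiv.addRight (1 : ZMod p)) _ _ (fun _ => rfl)
    simp only [sum_add_distrib, ← mul_sum, sum_sub_distrib, sum_dl0, sum_one', sum_dl, mul_one]
    rw [← sum_mul, sum_h2', e]
    have : (-1 : ZMod p) * (0 - 1) + -2 = -1 := by ring
    rw [this]
    exact isUnit_one.neg

/-- The three maps use the three generators. -/
theorem c_list (hp5 : 5 ≤ p) (v : (ZMod p × ZMod p) × ZMod p) :
    (([c2 v, c1 v, c3 v] : List ((ZMod p × ZMod p) × ZMod p)) :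
      Multiset ((ZMod p × ZMod p) × ZMod p)) =
      (([((v.1.1 + 1, v.1.2), v.2), ((v.1.1, v.1.2 + 1), v.2), (v.1, v.2 + 1)] :
        List ((ZMod p × ZMod p) × ZMod p)) : Multiset ((ZMod p × ZMod p) × ZMod p)) := by
  have ht : (([t1 v.1, t2 v.1] : List (ZMod p × ZMod p)) : Multiset (ZMod p × ZMod p)) =
      (([(v.1.1 + 1, v.1.2), (v.1.1, v.1.2 + 1)] : List (ZMod p × ZMod p)) :
        Multiset (ZMod p × ZMod p)) := by
    unfold t1 t2
    split_ifs
    · rfl
    · exact Multiset.coe_eq_coe.2 (List.Perm.swap _ _ _)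
  have ht' : (([(t1 v.1, v.2), (t2 v.1, v.2), (v.1, v.2 + 1)] :
      List ((ZMod p × ZMod p) × ZMod p)) : Multiset ((ZMod p × ZMod p) × ZMod p)) =
      (([((v.1.1 + 1, v.1.2), v.2), ((v.1.1, v.1.2 + 1), v.2), (v.1, v.2 + 1)] :
        List ((ZMod p × ZMod p) × ZMod p)) : Multiset ((ZMod p × ZMod p) × ZMod p)) := by
    have h := congrArg (fun m : Multiset (ZMod p × ZMod p) => m.map (fun w => (w, v.2))) ht
    simp only [Multiset.map_coe, List.map_cons, List.map_nil] at h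
    have h2 := Multiset.coe_eq_coe.1 h
    refine Multiset.coe_eq_coe.2 ?_
    exact (List.Perm.append_right [(v.1, v.2 + 1)] h2)
  rw [← ht']
  unfold c1 c2 c3
  rcases excl hp5 (SS v) with ⟨e1, e2, e3, ha⟩ | ⟨e1, e2, e3, ha, hb⟩ | ⟨e1, e2, e3, ha, hb, hc⟩ |
    ⟨e1, e2, e3, ha, hb, hc⟩
  · have hc : ¬ (SS v + (-2) = 0) := by
      rw [ha]; simpa using two_ne' hp5
    rw [if_pos (Or.inl ha), if_pos (Or.inl ha), if_neg hc]
    refine Multiset.coe_eq_coe.2 ?_
    refine (List.Perm.cons _ (List.Perm.swap _ _ _)).trans ?_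
    exact (List.Perm.swap _ _ _)
  · have hc : ¬ (SS v + (-2) = 0) := by
      intro hc
      apply one_ne' hp5
      have : (1 : ZMod p) = (SS v + (-1)) - (SS v + (-2)) := by ring
      rw [this, hb, hc, sub_zero]
    rw [if_pos (Or.inr hb), if_pos (Or.inr hb), if_neg hc]
    refine Multiset.coe_eq_coe.2 ?_
    refine (List.Perm.cons _ (List.Perm.swap _ _ _)).trans ?_
    exact (List.Perm.swap _ _ _)
  · rw [if_neg (by tauto : ¬ (SS v = 0 ∨ SS v + (-1) = 0)),
      if_neg (by tauto : ¬ (SS v = 0 ∨ SS v + (-1) = 0)), if_pos hc, if_pos hc]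
    refine Multiset.coe_eq_coe.2 ?_
    refine (List.Perm.swap _ _ _).trans ?_
    exact List.Perm.cons _ (List.Perm.swap _ _ _)
  · rw [if_neg (by tauto : ¬ (SS v = 0 ∨ SS v + (-1) = 0)),
      if_neg (by tauto : ¬ (SS v = 0 ∨ SS v + (-1) = 0)), if_neg hc, if_neg hc]
    exact Multiset.coe_eq_coe.2 (List.Perm.swap _ _ _)

end three

end Pool.Agent.U503.VS
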