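import Pool.Agent.U503.VS.Te

/-!
# Products of two cycles on a set and a further cycle: the third Hamiltonian cycle
-/

set_option autoImplicit false

namespace Pool.Agent.U503.VS

open Finset Function

variable {X Y : Type} {p q β : ℕ} [NeZero p] [NeZero q]

/-- The data of the triple construction. -/
structure TD (p q β : ℕ) [NeZero q] (U₁ U₂ : X × Y → ZMod q) (τ₁ τ₂ : X → X) (ρ : Y → Y) : Prop where
  hp : 5 ≤ p
  hb1 : 1 ≤ β
  hb2 : β ≤ 2
  hpq : p ∣ q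
  h11 : ∀ x y, U₁ (τ₁ x, y) = U₁ (x, y) + 1
  h22 : ∀ x y, U₂ (τ₂ x, y) = U₂ (x, y) + 1
  h1c : ∀ x y, U₁ (x, ρ y) = U₁ (x, y) + 1
  h2c : ∀ x y, U₂ (x, ρ y) = U₂ (x, y) + 1
  hS : ∀ v, (U₁ v).val ≡ (U₂ v).val [MOD p]
  i1 : Injective τ₁
  i2 : Injective τ₂
  ic : Injective ρ
  sec : ∀ x, ∃ y, U₁ (x, y) = 0
  sec' : ∀ x y y', U₁ (x, y) = U₁ (x, y') → y = y'
  tr : Trans (τ₂^[β] ∘ τ₁)

/-- The third map. -/
def k3 (β : ℕ) (U₁ U₂ : X × Y → ZMod q) (τ₁ τ₂ : X → X) (ρ : Y → Y) : X × Y → X × Y :=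
  fun v => if U₁ v = 0 then (τ₁ v.1, v.2) else
    if 1 ≤ (U₂ v).val ∧ (U₂ v).val ≤ β then (τ₂ v.1, v.2) else (v.1, ρ v.2)

/-- The values of the successor modulo `q`. -/
theorem val_succ (u : ZMod q) (hq : 2 ≤ q) :
    (u + 1).val = if u.val + 1 = q then 0 else u.val + 1 := by
  have h1 : (1 : ZMod q).val = 1 := by
    rw [ZMod.val_one_eq_one_mod]
    exact Nat.mod_eq_of_lt (by omega)
  have h2 := ZMod.val_lt u
  rw [ZMod.val_add, h1]
  split_ifs with h
  · rw [h, Nat.mod_self]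
  · exact Nat.mod_eq_of_lt (by omega)

omit [NeZero q] in
theorem val_eq_zero' {u : ZMod q} : u = 0 ↔ u.val = 0 := by
  rw [ZMod.val_eq_zero]

namespace TD

variable {U₁ U₂ : X × Y → ZMod q} {τ₁ τ₂ : X → X} {ρ : Y → Y} (D : TD p q β U₁ U₂ τ₁ τ₂ ρ)

include D

omit [NeZero p] in
theorem pq : p ≤ q := Nat.le_of_dvd (NeZero.pos q) D.hpq

omit [NeZero p] in
theorem q2 : 5 ≤ q := D.hp.trans D.pq

omit [NeZero p] in
/-- the values modulo `p` of the two diagonals -/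
theorem S1 (v : X × Y) : (U₁ v).val % p = (U₂ v).val % p := D.hS v

omit [NeZero p] in
theorem val_mod (u : ZMod q) : (u + 1).val % p = (u.val + 1) % p := by
  rw [val_succ u (by have := D.q2; omega)]
  split_ifs with h
  · rw [h, Nat.zero_mod, Nat.mod_eq_zero_of_dvd D.hpq]
  · rfl

omit [NeZero p] in
theorem not_special {v : X × Y} (h : U₁ v = 0) : ¬ (1 ≤ (U₂ v).val ∧ (U₂ v).val ≤ β) := by
  rintro ⟨h1, h2⟩
  have h3 := D.S1 v
  rw [h, ZMod.val_zero, Nat.zero_mod] at h3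
  have h4 := D.hb2
  have h5 := D.hp
  rw [Nat.mod_eq_of_lt (by omega)] at h3
  omega

omit [NeZero p] in
theorem inj : Injective (k3 β U₁ U₂ τ₁ τ₂ ρ) := by
  have hA : ∀ (x : X) (y : Y) (x' : X) (y' : Y), U₁ (x, y) = 0 → (τ₁ x, y) = (x', ρ y') →
      U₁ (x', y') = 0 := by
    intro x y x' y' h h'
    rw [Prod.mk.injEq] at h'
    obtain ⟨rfl, rfl⟩ := h'
    have h1 := D.h11 x (ρ y')
    rw [h, D.h1c] at h1
    simpa using h1
  have hB : ∀ (x : X) (y : Y) (x' : X) (y' : Y), (τ₂ x, y) = (x', ρ y') →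
      U₂ (x', y') = U₂ (x, y) := by
    intro x y x' y' h'
    rw [Prod.mk.injEq] at h'
    obtain ⟨rfl, rfl⟩ := h'
    have h1 := D.h22 x (ρ y')
    rw [D.h2c (τ₂ x)] at h1
    exact add_right_cancel h1
  have hAB : ∀ (x : X) (y : Y) (x' : X) (y' : Y), U₁ (x, y) = 0 →
      (1 ≤ (U₂ (x', y')).val ∧ (U₂ (x', y')).val ≤ β) → (τ₁ x, y) ≠ (τ₂ x', y') := by
    intro x y x' y' h h' he
    rw [Prod.mk.injEq] at he
    obtain ⟨he, rfl⟩ := he
    have h1 := D.h11 x y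
    rw [h, zero_add, he] at h1
    have h2 := D.h22 x' y
    have h3 := D.S1 (τ₂ x', y)
    have h4 := D.val_mod (U₂ (x', y))
    have h5 := D.val_mod (0 : ZMod q)
    rw [zero_add, ZMod.val_zero] at h5
    rw [h1, h2, h4, h5] at h3
    have h6 := D.hb2
    have h7 := D.hp
    rw [Nat.mod_eq_of_lt (by omega), Nat.mod_eq_of_lt (by omega)] at h3
    omega
  rintro ⟨x, y⟩ ⟨x', y'⟩ h
  unfold k3 at h
  simp only at h
  by_cases ha : U₁ (x, y) = 0
  · rw [if_pos ha] at h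
    by_cases ha' : U₁ (x', y') = 0
    · rw [if_pos ha', Prod.mk.injEq] at h
      rw [D.i1 h.1, h.2]
    · rw [if_neg ha'] at h
      split_ifs at h with hb
      · exact absurd h (hAB x y x' y' ha hb)
      · exact absurd (hA x y x' y' ha h) ha'
  · rw [if_neg ha] at h
    by_cases ha' : U₁ (x', y') = 0
    · rw [if_pos ha'] at h
      split_ifs at h with hb
      · exact absurd h.symm (hAB x' y' x y ha' hb)
      · exact absurd (hA x' y' x y ha' h.symm) ha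
    · rw [if_neg ha'] at h
      split_ifs at h with hb hb' hb'
      · rw [Prod.mk.injEq] at h
        rw [D.i2 h.1, h.2]
      · rw [hB x y x' y' h] at hb'
        exact absurd hb hb'
      · rw [hB x' y' x y h.symm] at hb
        exact absurd hb' hb
      · rw [Prod.mk.injEq] at h
        rw [h.1, D.ic h.2]

/-- reachability -/
def R (_ : TD p q β U₁ U₂ τ₁ τ₂ ρ) (v w : X × Y) : Prop := ∃ m : ℕ, (k3 β U₁ U₂ τ₁ τ₂ ρ)^[m] v = w

omit [NeZero p] in
theorem R.refl (v : X × Y) : D.R v v := ⟨0, rfl⟩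

omit [NeZero p] in
theorem R.trans' {u v w : X × Y} (h1 : D.R u v) (h2 : D.R v w) : D.R u w := by
  obtain ⟨m, hm⟩ := h1
  obtain ⟨k, hk⟩ := h2
  exact ⟨k + m, by rw [iterate_add_apply, hm, hk]⟩

omit [NeZero p] in
theorem R.symm' [Finite X] [Finite Y] {v w : X × Y} (h : D.R v w) : D.R w v := by
  obtain ⟨m, hm⟩ := h
  obtain ⟨t, ht, hper⟩ := D.inj.mem_periodicPts v
  refine ⟨t * m - m, ?_⟩
  rw [← hm, ← iterate_add_apply]
  have h1 : t * m - m + m = m * t := by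
    have : m ≤ t * m := Nat.le_mul_of_pos_left m ht
    rw [mul_comm m t]
    omega
  rw [h1]
  exact (hper.const_mul m)

omit [NeZero p] in
theorem stepA {x : X} {y : Y} (h : U₁ (x, y) = 0) : D.R (x, y) (τ₁ x, y) :=
  ⟨1, by rw [iterate_one]; unfold k3; rw [if_pos h]⟩

omit [NeZero p] in
theorem stepB {x : X} {y : Y} (h1 : 1 ≤ (U₂ (x, y)).val) (h2 : (U₂ (x, y)).val ≤ β) :
    D.R (x, y) (τ₂ x, y) := by
  refine ⟨1, ?_⟩
  rw [iterate_one]
  unfold k3
  have h3 : U₁ (x, y) ≠ 0 := fun h => D.not_special h ⟨h1, h2⟩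
  rw [if_neg h3, if_pos ⟨h1, h2⟩]

omit [NeZero p] in
theorem stepC {x : X} {y : Y} (h1 : U₁ (x, y) ≠ 0)
    (h2 : ¬ (1 ≤ (U₂ (x, y)).val ∧ (U₂ (x, y)).val ≤ β)) : D.R (x, y) (x, ρ y) := by
  refine ⟨1, ?_⟩
  rw [iterate_one]
  unfold k3
  rw [if_neg h1, if_neg h2]

omit [NeZero p] in
/-- Second phase: from `U₂ > β` up to the section. -/
theorem phase2 {x : X} : ∀ (k : ℕ) (y : Y), (U₁ (x, y)).val + k = q ∨ U₁ (x, y) = 0 →
    β < (U₂ (x, y)).val → (U₂ (x, y)).val + k ≤ q → ∃ y', U₁ (x, y') = 0 ∧ D.R (x, y) (x, y') := by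
  intro k
  induction k with
  | zero =>
    intro y h1 h2 h3
    rcases h1 with h1 | h1
    · have := ZMod.val_lt (U₁ (x, y))
      omega
    · exact ⟨y, h1, R.refl D _⟩
  | succ k ih =>
    intro y h1 h2 h3
    by_cases h0 : U₁ (x, y) = 0
    · exact ⟨y, h0, R.refl D _⟩
    have h1' : (U₁ (x, y)).val + (k + 1) = q := h1.resolve_right h0
    have hq := D.q2
    have e1 := val_succ (U₁ (x, y)) (by omega)
    have e2 := val_succ (U₂ (x, y)) (by omega)
    rw [← D.h1c] at e1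
    rw [← D.h2c] at e2
    have hs : D.R (x, y) (x, ρ y) := D.stepC h0 (by omega)
    by_cases hk : k = 0
    · subst hk
      rw [if_pos (by omega)] at e1
      exact ⟨ρ y, val_eq_zero'.2 e1, hs⟩
    · rw [if_neg (by omega)] at e1
      rw [if_neg (by omega)] at e2
      obtain ⟨y', h4, h5⟩ := ih (ρ y) (Or.inl (by omega)) (by omega) (by omega)
      exact ⟨y', h4, R.trans' D hs h5⟩

omit [NeZero p] in
/-- From the end of the special block to the section. -/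
theorem phase2' {x : X} {y : Y} (h : (U₂ (x, y)).val = β + 1) :
    ∃ y', U₁ (x, y') = 0 ∧ D.R (x, y) (x, y') := by
  by_cases h0 : U₁ (x, y) = 0
  · exact ⟨y, h0, R.refl D _⟩
  have h1 : (U₁ (x, y)).val ≠ 0 := fun h' => h0 (val_eq_zero'.2 h')
  have h2 := ZMod.val_lt (U₁ (x, y))
  refine D.phase2 (q - (U₁ (x, y)).val) y (Or.inl (by omega)) (by omega) ?_
  -- the difference is small because of the grading
  have h3 := D.S1 (x, y)
  have hb := D.hb2
  have hp := D.hp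
  rw [h, Nat.mod_eq_of_lt (by omega : β + 1 < p)] at h3
  have h4 := Nat.mod_le (U₁ (x, y)).val p
  omega

omit [NeZero p] in
/-- The special block. -/
theorem block : ∀ (k : ℕ) (x : X) (y : Y), (U₂ (x, y)).val + k = β + 1 → 1 ≤ (U₂ (x, y)).val →
    D.R (x, y) (τ₂^[k] x, y) ∧ (U₂ (τ₂^[k] x, y)).val = β + 1 := by
  intro k
  induction k with
  | zero => intro x y h1 _; exact ⟨R.refl D _, by simpa using h1⟩
  | succ k ih =>
    intro x y h1 h2
    have hq := D.q2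
    have hb := D.hb2
    have e2 := val_succ (U₂ (x, y)) (by omega)
    rw [← D.h22, if_neg (by omega)] at e2
    obtain ⟨h3, h4⟩ := ih (τ₂ x) y (by omega) (by omega)
    rw [iterate_succ_apply]
    exact ⟨R.trans' D (D.stepB h2 (by omega)) h3, h4⟩

omit [NeZero p] in
/-- First phase: up to `U₂ = 1` or to the section. -/
theorem phase1 {x : X} : ∀ (k : ℕ) (y : Y), ((U₂ (x, y)).val + k = q + 1 ∧ β < (U₂ (x, y)).val) ∨
      ((U₂ (x, y)).val = 0 ∧ k = 1) ∨ ((U₂ (x, y)).val = 1 ∧ k = 0) →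
    (∃ y', U₁ (x, y') = 0 ∧ D.R (x, y) (x, y')) ∨
    ∃ y', (U₂ (x, y')).val = 1 ∧ D.R (x, y) (x, y') := by
  intro k
  induction k with
  | zero =>
    intro y h
    have h1 := ZMod.val_lt (U₂ (x, y))
    rcases h with h | h | h
    · omega
    · omega
    · exact Or.inr ⟨y, h.1, R.refl D _⟩
  | succ k ih =>
    intro y h
    by_cases h0 : U₁ (x, y) = 0
    · exact Or.inl ⟨y, h0, R.refl D _⟩
    have hq := D.q2
    have hb := D.hb2
    have h1 := ZMod.val_lt (U₂ (x, y))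
    have e2 := val_succ (U₂ (x, y)) (by omega)
    rw [← D.h2c] at e2
    have hs : D.R (x, y) (x, ρ y) := D.stepC h0 (by omega)
    have h5 : ((U₂ (x, ρ y)).val + k = q + 1 ∧ β < (U₂ (x, ρ y)).val) ∨
      ((U₂ (x, ρ y)).val = 0 ∧ k = 1) ∨ ((U₂ (x, ρ y)).val = 1 ∧ k = 0) := by
      rcases h with h | h | h
      · split_ifs at e2 with h6
        · right; left; omega
        · left; omega
      · rw [if_neg (by omega)] at e2
        right; right; omega
      · omega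
    rcases ih (ρ y) h5 with ⟨y', h6, h7⟩ | ⟨y', h6, h7⟩
    · exact Or.inl ⟨y', h6, R.trans' D hs h7⟩
    · exact Or.inr ⟨y', h6, R.trans' D hs h7⟩

omit [NeZero p] in
/-- From every point one comes to the section. -/
theorem to_sec (x : X) (y : Y) : ∃ x' y', U₁ (x', y') = 0 ∧ D.R (x, y) (x', y') := by
  have hfin : ∀ (x : X) (y : Y), 1 ≤ (U₂ (x, y)).val → (U₂ (x, y)).val ≤ β →
      ∃ x' y', U₁ (x', y') = 0 ∧ D.R (x, y) (x', y') := by
    intro x y h1 h2
    obtain ⟨h3, h4⟩ := D.block (β + 1 - (U₂ (x, y)).val) x y (by omega) h1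
    obtain ⟨y', h5, h6⟩ := D.phase2' h4
    exact ⟨_, y', h5, R.trans' D h3 h6⟩
  by_cases hB : 1 ≤ (U₂ (x, y)).val ∧ (U₂ (x, y)).val ≤ β
  · exact hfin x y hB.1 hB.2
  have h1 := ZMod.val_lt (U₂ (x, y))
  have hb := D.hb1
  have h2 : (∃ y', U₁ (x, y') = 0 ∧ D.R (x, y) (x, y')) ∨
      ∃ y', (U₂ (x, y')).val = 1 ∧ D.R (x, y) (x, y') := by
    by_cases h0 : (U₂ (x, y)).val = 0
    · exact D.phase1 1 y (Or.inr (Or.inl ⟨h0, rfl⟩))
    · exact D.phase1 (q + 1 - (U₂ (x, y)).val) y (Or.inl (by omega))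
  rcases h2 with ⟨y', h3, h4⟩ | ⟨y', h3, h4⟩
  · exact ⟨x, y', h3, h4⟩
  · obtain ⟨x'', y'', h5, h6⟩ := hfin x y' (by omega) (by omega)
    exact ⟨x'', y'', h5, R.trans' D h4 h6⟩

omit [NeZero p] in
/-- First phase after the step from the section: the section is not met. -/
theorem phase1' {x : X} : ∀ (k : ℕ) (y : Y), 1 ≤ (U₁ (x, y)).val → (U₁ (x, y)).val + k < q →
      ((U₂ (x, y)).val + k = q + 1 ∧ β < (U₂ (x, y)).val) ∨
      ((U₂ (x, y)).val = 0 ∧ k = 1) ∨ ((U₂ (x, y)).val = 1 ∧ k = 0) →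
    ∃ y', (U₂ (x, y')).val = 1 ∧ D.R (x, y) (x, y') := by
  intro k
  induction k with
  | zero =>
    intro y _ _ h
    have h1 := ZMod.val_lt (U₂ (x, y))
    rcases h with h | h | h
    · omega
    · omega
    · exact ⟨y, h.1, R.refl D _⟩
  | succ k ih =>
    intro y ha hb' h
    have h0 : U₁ (x, y) ≠ 0 := fun h' => by
      rw [h', ZMod.val_zero] at ha; omega
    have hq := D.q2
    have hb := D.hb2
    have h1 := ZMod.val_lt (U₂ (x, y))
    have e2 := val_succ (U₂ (x, y)) (by omega)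
    have e1 := val_succ (U₁ (x, y)) (by omega)
    rw [← D.h2c] at e2
    rw [← D.h1c, if_neg (by omega)] at e1
    have hs : D.R (x, y) (x, ρ y) := D.stepC h0 (by omega)
    have h5 : ((U₂ (x, ρ y)).val + k = q + 1 ∧ β < (U₂ (x, ρ y)).val) ∨
      ((U₂ (x, ρ y)).val = 0 ∧ k = 1) ∨ ((U₂ (x, ρ y)).val = 1 ∧ k = 0) := by
      rcases h with h | h | h
      · split_ifs at e2 with h6
        · right; left; omega
        · left; omega
      · rw [if_neg (by omega)] at e2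
        right; right; omega
      · omega
    obtain ⟨y', h6, h7⟩ := ih (ρ y) (by omega) (by omega) h5
    exact ⟨y', h6, R.trans' D hs h7⟩

omit [NeZero p] in
/-- From the section to the section. -/
theorem sec_step {x : X} {y : Y} (h : U₁ (x, y) = 0) :
    ∃ y', U₁ (τ₂^[β] (τ₁ x), y') = 0 ∧ D.R (x, y) (τ₂^[β] (τ₁ x), y') := by
  have hq := D.q2
  have hb := D.hb2
  have hb1 := D.hb1
  have hp := D.hp
  have e1 := val_succ (U₁ (x, y)) (by omega)
  rw [← D.h11, if_neg (by rw [h, ZMod.val_zero]; omega), h, ZMod.val_zero, zero_add] at e1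
  have h3 := D.S1 (τ₁ x, y)
  rw [e1, Nat.mod_eq_of_lt (by omega : 1 < p)] at h3
  have h2 := ZMod.val_lt (U₂ (τ₁ x, y))
  have hex : ∃ y', (U₂ (τ₁ x, y')).val = 1 ∧ D.R (τ₁ x, y) (τ₁ x, y') := by
    by_cases h4 : (U₂ (τ₁ x, y)).val = 1
    · exact ⟨y, h4, R.refl D _⟩
    · have h5 : p < (U₂ (τ₁ x, y)).val := by
        by_contra hcon
        push Not at hcon
        rcases Nat.lt_or_eq_of_le hcon with h6 | h6
        · rw [Nat.mod_eq_of_lt h6] at h3
          exact h4 h3.symm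
        · rw [h6, Nat.mod_self] at h3
          omega
      refine D.phase1' (q + 1 - (U₂ (τ₁ x, y)).val) y (by omega) (by omega) (Or.inl (by omega))
  obtain ⟨y', h4, h5⟩ := hex
  obtain ⟨h6, h7⟩ := D.block β (τ₁ x) y' (by omega) (by omega)
  obtain ⟨y'', h8, h9⟩ := D.phase2' h7
  exact ⟨y'', h8, R.trans' D (R.trans' D (R.trans' D (D.stepA h) h5) h6) h9⟩

omit [NeZero p] in
theorem trans3 [Finite X] [Finite Y] : Trans (k3 β U₁ U₂ τ₁ τ₂ ρ) := by
  have hsec : ∀ (m : ℕ) (x : X) (y : Y), U₁ (x, y) = 0 →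
      ∃ y', U₁ ((τ₂^[β] ∘ τ₁)^[m] x, y') = 0 ∧ D.R (x, y) ((τ₂^[β] ∘ τ₁)^[m] x, y') := by
    intro m
    induction m with
    | zero => intro x y h; exact ⟨y, h, R.refl D _⟩
    | succ m ih =>
      intro x y h
      obtain ⟨y', h1, h2⟩ := ih x y h
      obtain ⟨y'', h3, h4⟩ := D.sec_step h1
      rw [iterate_succ_apply']
      exact ⟨y'', h3, R.trans' D h2 h4⟩
  rintro ⟨x, y⟩ ⟨x', y'⟩
  obtain ⟨a, b, h1, h2⟩ := D.to_sec x y
  obtain ⟨a', b', h1', h2'⟩ := D.to_sec x' y'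
  obtain ⟨m, hm⟩ := D.tr a a'
  obtain ⟨c, h3, h4⟩ := hsec m a b h1
  rw [hm] at h3 h4
  have h5 : c = b' := D.sec' a' c b' (by rw [h3, h1'])
  subst h5
  exact R.trans' D (R.trans' D h2 h4) (R.symm' D h2')

end TD

end Pool.Agent.U503.VS
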